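import Pool.Agent.H63.LE.Defs

/-!
S05864 PART E [H63 LE HH]. The functions `h_w`. `hh K m w = ofLeaf K Φ`, `Φ g = (1[w <:+ g] - (1/N) 1[w.tail <:+ g]) n_w`.
-/

set_option autoImplicit false

namespace H63LE

open H50RC

section
variable {N K m : ℕ}

theorem suffix_append_iff {p q : Nd N} (h : p.length ≤ q.length) (g : Nd N) :
    p <:+ g ++ q ↔ p <:+ q := by
  constructor
  · intro h1
    exact List.suffix_of_suffix_length_le h1 (List.suffix_append g q) h
  · intro h1
    exact h1.trans (List.suffix_append g q)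

theorem suffix_tail_iff {p q : Nd N} (h : p.length < q.length) :
    p <:+ q ↔ p <:+ q.tail := by
  cases q with
  | nil => simp at h
  | cons a q =>
    rw [List.tail_cons]
    have h2 : p.length ≤ q.length := by
      rw [List.length_cons] at h
      omega
    exact suffix_append_iff h2 [a]

/-- the number of leaves below `q` which are below `p` -/
theorem cnt_le {p q : Nd N} (h : p.length ≤ q.length) :
    ∑ g ∈ lev N (K - q.length), (if p <:+ g ++ q then (1 : ℝ) else 0) =
      (N : ℝ) ^ (K - q.length) * (if p <:+ q then 1 else 0) := by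
  have h1 : ∀ g ∈ lev N (K - q.length), (if p <:+ g ++ q then (1 : ℝ) else 0) =
      if p <:+ q then 1 else 0 := by
    intro g _
    simp only [suffix_append_iff h]
  rw [Finset.sum_congr rfl h1, Finset.sum_const, card_lev, nsmul_eq_mul]
  push_cast
  ring

theorem cnt_ge {p q : Nd N} (h : q.length ≤ p.length) (hp : p.length ≤ K) :
    ∑ g ∈ lev N (K - q.length), (if p <:+ g ++ q then (1 : ℝ) else 0) =
      (N : ℝ) ^ (K - p.length) * (if q <:+ p then 1 else 0) := by
  have e1 : K - q.length = (K - p.length) + (p.length - q.length) := by omega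
  rw [e1, sum_lev_add]
  have h1 : ∀ v ∈ lev N (p.length - q.length),
      ∑ g ∈ lev N (K - p.length), (if p <:+ g ++ v ++ q then (1 : ℝ) else 0) =
      (N : ℝ) ^ (K - p.length) * (if p = v ++ q then 1 else 0) := by
    intro v hv
    rw [mem_lev] at hv
    have hl : (v ++ q).length = p.length := by
      rw [List.length_append, hv]
      omega
    have h2 : ∀ g ∈ lev N (K - p.length), (if p <:+ g ++ v ++ q then (1 : ℝ) else 0) =
        if p = v ++ q then 1 else 0 := by
      intro g _
      have h3 : p <:+ g ++ v ++ q ↔ p = v ++ q := by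
        rw [List.append_assoc, suffix_append_iff hl.ge]
        constructor
        · intro h4
          exact h4.eq_of_length hl.symm
        · rintro h4
          rw [← h4]
      simp only [h3]
    rw [Finset.sum_congr rfl h2, Finset.sum_const, card_lev, nsmul_eq_mul]
    push_cast
    ring
  rw [Finset.sum_congr rfl h1, ← Finset.mul_sum]
  congr 1
  by_cases hq : q <:+ p
  · rw [if_pos hq]
    obtain ⟨v, rfl⟩ := hq
    rw [Finset.sum_eq_single v]
    · rw [if_pos rfl]
    · intro u _ hu
      rw [if_neg]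
      intro h5
      exact hu (List.append_cancel_right h5).symm
    · intro h5
      exfalso
      apply h5
      rw [mem_lev, List.length_append]
      omega
  · rw [if_neg hq]
    apply Finset.sum_eq_zero
    intro v _
    rw [if_neg]
    rintro rfl
    exact hq (List.suffix_append v q)

/-- the real coefficient of `hh` -/
noncomputable def hc (N K : ℕ) (w q : Nd N) : ℝ :=
  ∑ g ∈ lev N (K - q.length), ((if w <:+ g ++ q then (1 : ℝ) else 0) -
    (N : ℝ)⁻¹ * (if w.tail <:+ g ++ q then 1 else 0))

theorem hh_eq (w q : Nd N) : hh K m w q = (hc N K w q : ℂ) * dir m w.length := by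
  unfold hh ofLeaf hc
  rw [← Finset.sum_mul]
  congr 1
  push_cast
  rfl

theorem hc_lt (hN : 1 ≤ N) {w q : Nd N} (hw : w ≠ []) (hwK : w.length ≤ K)
    (hq : q.length < w.length) : hc N K w q = 0 := by
  have hN0 : (N : ℝ) ≠ 0 := by positivity
  have ht : w.tail.length = w.length - 1 := List.length_tail
  have e1 := cnt_ge (N := N) (K := K) (p := w) (q := q) hq.le hwK
  have e2 := cnt_ge (N := N) (K := K) (p := w.tail) (q := q) (by omega) (by omega)
  unfold hc
  rw [Finset.sum_sub_distrib, ← Finset.mul_sum, e1, e2, ht]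
  have e3 : K - (w.length - 1) = (K - w.length) + 1 := by omega
  have e4 : (q <:+ w) ↔ (q <:+ w.tail) := suffix_tail_iff hq
  rw [e3, pow_succ]
  simp only [e4]
  field_simp
  ring

theorem hc_ge {w q : Nd N} (hq : w.length ≤ q.length) : hc N K w q =
    (N : ℝ) ^ (K - q.length) * ((if w <:+ q then (1 : ℝ) else 0) -
      (N : ℝ)⁻¹ * (if w.tail <:+ q then 1 else 0)) := by
  have ht : w.tail.length ≤ w.length := by
    rw [List.length_tail]
    omega
  unfold hc
  rw [Finset.sum_sub_distrib, ← Finset.mul_sum, cnt_le hq, cnt_le (ht.trans hq)]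
  ring

theorem ofLeaf_mem (Φ : Y N) : ofLeaf K Φ ∈ Vs N K := by
  intro q hq
  unfold ofLeaf
  have e1 : K - q.length = (K - (q.length + 1)) + 1 := by omega
  rw [e1, sum_lev_add, sum_lev_succ]
  simp only [lev, Finset.sum_singleton, List.length_cons, List.append_assoc, List.singleton_append]

theorem hh_mem (hN : 1 ≤ N) {w : Nd N} (hw : w ∈ nds N K) : hh K m w ∈ Xs N K m := by
  rw [mem_nds] at hw
  obtain ⟨hw0, hwK⟩ := hw
  have hN0 : (N : ℝ) ≠ 0 := by positivity
  refine ⟨ofLeaf_mem _, ?_⟩
  intro q hq
  rw [mem_nds] at hq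
  obtain ⟨hq0, hqK⟩ := hq
  have hrr : rr m (hh K m w) q = (hc N K w q - (N : ℝ)⁻¹ * hc N K w q.tail) *
      dt (Complex.I * dir m q.length) (dir m w.length) := by
    unfold rr
    rw [hh_eq, hh_eq]
    have : (hc N K w q : ℂ) * dir m w.length - (N : ℝ)⁻¹ • ((hc N K w q.tail : ℂ) * dir m w.length)
        = (hc N K w q - (N : ℝ)⁻¹ * hc N K w q.tail) • dir m w.length := by
      rw [Complex.real_smul, Complex.real_smul]
      push_cast
      ring
    rw [this, dt_smul_right]
  rw [hrr]
  have hqt : q.tail.length = q.length - 1 := List.length_tail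
  have hql : 0 < q.length := List.length_pos_of_ne_nil hq0
  rcases lt_trichotomy q.length w.length with h | h | h
  · rw [hc_lt hN hw0 hwK h, hc_lt hN hw0 hwK (by omega)]
    ring
  · rw [h, dt_rot_self]
    ring
  · have h1 : w.length ≤ q.tail.length := by omega
    rw [hc_ge h.le, hc_ge h1, hqt]
    have e3 : K - (q.length - 1) = (K - q.length) + 1 := by omega
    have e4 : (w <:+ q) ↔ (w <:+ q.tail) := suffix_tail_iff h
    have e5 : (w.tail <:+ q) ↔ (w.tail <:+ q.tail) := by
      apply suffix_tail_iff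
      rw [List.length_tail]
      omega
    rw [e3, pow_succ]
    simp only [e4, e5]
    have : ∀ a : ℝ, (N : ℝ) ^ (K - q.length) * a -
        (N : ℝ)⁻¹ * ((N : ℝ) ^ (K - q.length) * N * a) = 0 := by
      intro a
      field_simp
      ring
    rw [this, zero_mul]

theorem hh_leaf (w : Nd N) {g : Nd N} (hg : g ∈ lev N K) : hh K m w g =
    (((if w <:+ g then (1 : ℝ) else 0) - (N : ℝ)⁻¹ * (if w.tail <:+ g then 1 else 0) : ℝ) : ℂ) * dir m w.length := by
  rw [mem_lev] at hg
  unfold hh ofLeaf
  rw [hg, Nat.sub_self]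
  simp only [lev, Finset.sum_singleton, List.nil_append]

theorem norm_hh_leaf_le (hN : 1 ≤ N) (w : Nd N) {g : Nd N} (hg : g ∈ lev N K) : ‖hh K m w g‖ ≤ 1 := by
  rw [hh_leaf w hg, norm_mul, norm_dir, mul_one, Complex.norm_real, Real.norm_eq_abs]
  have h1 : (1 : ℝ) ≤ N := by exact_mod_cast hN
  have h2 : (N : ℝ)⁻¹ ≤ 1 := inv_le_one_of_one_le₀ h1
  have h3 : 0 ≤ (N : ℝ)⁻¹ := by positivity
  have h4 : w <:+ g → w.tail <:+ g := fun h => (List.tail_suffix w).trans h
  by_cases ha : w <:+ g
  · rw [if_pos ha, if_pos (h4 ha)]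
    rw [abs_le]
    constructor <;> linarith
  · rw [if_neg ha]
    by_cases hb : w.tail <:+ g
    · rw [if_pos hb, abs_le]
      constructor <;> linarith
    · rw [if_neg hb, abs_le]
      constructor <;> linarith

end

end H63LE
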