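import Mathlib

/-!
S05864 PART E [H63 LE STAIR]. Smooth staircase `stair ε t = ⌊t⌋ + T((fract t - 1/2)/ε)`, `T = Real.smoothTransition`, `0 < ε < 1/2`.
-/

set_option autoImplicit false

open scoped ContDiff

namespace H63LE

/-- smooth staircase -/
noncomputable def stair (ε t : ℝ) : ℝ := ⌊t⌋ + Real.smoothTransition ((Int.fract t - 1 / 2) / ε)

theorem stair_eq_local {ε : ℝ} (h0 : 0 < ε) (h1 : ε < 1 / 2) (n : ℤ) {t : ℝ}
    (ha : (n : ℝ) - 1 / 2 + ε ≤ t) (hb : t ≤ n + 3 / 2) :
    stair ε t = n + Real.smoothTransition ((t - n - 1 / 2) / ε) := by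
  unfold stair
  by_cases hlt : t < n
  · have hf : ⌊t⌋ = n - 1 := by
      rw [Int.floor_eq_iff]
      push_cast
      constructor <;> linarith
    have hfr : Int.fract t = t - (n - 1) := by
      unfold Int.fract
      rw [hf]
      push_cast
      ring
    rw [hfr, hf]
    have e1 : Real.smoothTransition ((t - (n - 1) - 1 / 2) / ε) = 1 := by
      apply Real.smoothTransition.one_of_one_le
      rw [le_div_iff₀ h0]
      linarith
    have e2 : Real.smoothTransition ((t - n - 1 / 2) / ε) = 0 := by
      apply Real.smoothTransition.zero_of_nonpos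
      apply div_nonpos_of_nonpos_of_nonneg _ h0.le
      linarith
    rw [e1, e2]
    push_cast
    ring
  · push Not at hlt
    by_cases hlt2 : t < n + 1
    · have hf : ⌊t⌋ = n := by
        rw [Int.floor_eq_iff]
        exact ⟨hlt, hlt2⟩
      have hfr : Int.fract t = t - n := by
        unfold Int.fract
        rw [hf]
      rw [hfr, hf]
    · push Not at hlt2
      have hf : ⌊t⌋ = n + 1 := by
        rw [Int.floor_eq_iff]
        push_cast
        constructor <;> linarith
      have hfr : Int.fract t = t - (n + 1) := by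
        unfold Int.fract
        rw [hf]
        push_cast
        ring
      rw [hfr, hf]
      have e1 : Real.smoothTransition ((t - (n + 1) - 1 / 2) / ε) = 0 := by
        apply Real.smoothTransition.zero_of_nonpos
        apply div_nonpos_of_nonpos_of_nonneg _ h0.le
        linarith
      have e2 : Real.smoothTransition ((t - n - 1 / 2) / ε) = 1 := by
        apply Real.smoothTransition.one_of_one_le
        rw [le_div_iff₀ h0]
        linarith
      rw [e1, e2]
      push_cast
      ring

theorem stair_smooth {ε : ℝ} (h0 : 0 < ε) (h1 : ε < 1 / 2) : ContDiff ℝ ∞ (stair ε) := by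
  rw [contDiff_iff_contDiffAt]
  intro t0
  have hs : ContDiffAt ℝ ∞
      (fun t : ℝ => (⌊t0⌋ : ℝ) + Real.smoothTransition ((t - ⌊t0⌋ - 1 / 2) / ε)) t0 := by
    apply ContDiff.contDiffAt
    apply contDiff_const.add
    apply Real.smoothTransition.contDiff.comp
    apply ContDiff.div_const
    exact (contDiff_id.sub contDiff_const).sub contDiff_const
  refine hs.congr_of_eventuallyEq ?_
  have hl : (⌊t0⌋ : ℝ) ≤ t0 := Int.floor_le t0
  have hu : t0 < ⌊t0⌋ + 1 := Int.lt_floor_add_one t0
  have hn : Set.Ioo ((⌊t0⌋ : ℝ) - 1 / 2 + ε) (⌊t0⌋ + 3 / 2) ∈ nhds t0 := by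
    apply Ioo_mem_nhds <;> linarith
  filter_upwards [hn] with t ht
  exact stair_eq_local h0 h1 ⌊t0⌋ ht.1.le ht.2.le

theorem smoothTransition_mono : Monotone Real.smoothTransition := by
  intro x y hxy
  unfold Real.smoothTransition
  have hx := Real.smoothTransition.pos_denom x
  have hy := Real.smoothTransition.pos_denom y
  rw [div_le_div_iff₀ hx hy]
  have h1 : expNegInvGlue x ≤ expNegInvGlue y := expNegInvGlue.monotone hxy
  have h2 : expNegInvGlue (1 - y) ≤ expNegInvGlue (1 - x) :=
    expNegInvGlue.monotone (by linarith)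
  have h3 : 0 ≤ expNegInvGlue x := expNegInvGlue.nonneg x
  have h4 : 0 ≤ expNegInvGlue (1 - y) := expNegInvGlue.nonneg _
  nlinarith [mul_le_mul h1 h2 h4 (expNegInvGlue.nonneg y)]

theorem stair_mono {ε : ℝ} (h0 : 0 < ε) : Monotone (stair ε) := by
  intro s t hst
  unfold stair
  by_cases hf : ⌊s⌋ = ⌊t⌋
  · rw [hf]
    have : Int.fract s ≤ Int.fract t := by
      unfold Int.fract
      rw [hf]
      linarith
    have h2 : (Int.fract s - 1 / 2) / ε ≤ (Int.fract t - 1 / 2) / ε := by
      apply div_le_div_of_nonneg_right _ h0.le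
      linarith
    have := smoothTransition_mono h2
    linarith
  · have hle : ⌊s⌋ ≤ ⌊t⌋ := Int.floor_mono hst
    have hlt : ⌊s⌋ + 1 ≤ ⌊t⌋ := by omega
    have hlt' : (⌊s⌋ : ℝ) + 1 ≤ ⌊t⌋ := by exact_mod_cast hlt
    have h1 := Real.smoothTransition.le_one ((Int.fract s - 1 / 2) / ε)
    have h2 := Real.smoothTransition.nonneg ((Int.fract t - 1 / 2) / ε)
    linarith

theorem stair_add_one (ε t : ℝ) : stair ε (t + 1) = stair ε t + 1 := by
  unfold stair
  rw [Int.fract_add_one, Int.floor_add_one]
  push_cast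
  ring

theorem stair_zero {ε : ℝ} (h0 : 0 < ε) (h1 : ε < 1 / 2) {t : ℝ} (ht : -(1 / 2) + ε ≤ t) (ht' : t ≤ 1 / 2) : stair ε t = 0 := by
  rw [stair_eq_local h0 h1 0 (by push_cast; linarith) (by push_cast; linarith)]
  rw [Real.smoothTransition.zero_of_nonpos]
  · push_cast
    ring
  · apply div_nonpos_of_nonpos_of_nonneg _ h0.le
    push_cast
    linarith

theorem stair_one {ε : ℝ} (h0 : 0 < ε) (h1 : ε < 1 / 2) {t : ℝ} (ht : 1 / 2 + ε ≤ t) (ht' : t ≤ 3 / 2) : stair ε t = 1 := by
  rw [stair_eq_local h0 h1 0 (by push_cast; linarith) (by push_cast; linarith)]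
  rw [Real.smoothTransition.one_of_one_le]
  · push_cast
    ring
  · rw [le_div_iff₀ h0]
    push_cast
    linarith

end H63LE
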