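import Pool.Agent.H63.LE.Defs
import Pool.Agent.H63.LE.Stair

/-!
S05864 PART E [H63 LE SYS]. Existence of the system `PS N η`. Put `ε = min (1/4) (η / (N+1))` (so `0 < ε < 1/2`, `N ε ≤ η`, ) and
`f a t = stair ε (t - a/N) - stair ε (t - (a+1)/N)`. smooth: clear. nonneg: `stair_mono`. per: `stair_add_one` twice.
sum_one: telescoping sum (`Fin.sum_univ_eq_sum_range`, `Finset.sum_range_sub'`) `= stair ε t - stair ε (t - 1) = 1`.
mean: `f a t = f 0 (t - a/N)`, so by periodicity (`Function.Periodic.intervalIntegral_add_eq` after `intervalIntegral.integral_comp_sub_right`)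
all the integrals over `[0,1]` are equal, and their sum is `∫ 1 = 1`.
sq: by periodicity the integral over `[0,1]` of `(f a)^2` is the integral over `[1/2 + a/N, 3/2 + a/N]`, and on the subinterval
`[1/2 + a/N + ε, 1/2 + (a+1)/N]` one has `f a t = 1 - 0` (`stair_one`, `stair_zero`), so the integral is `≥ 1/N - ε ≥ (1-η)/N`
(if `1/N < ε` the claim is trivial since the integral is `≥ 0`: but `1/N - ε ≥ (1-η)/N` always, so treat the case `1/N ≤ ε` separately by nonnegativity).
-/

/-!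
S05864 PART E [H63 LE SYS]. Existence of the system `PS N η`. Put `ε = min (1/4) (η / (N+1))` (so `0 < ε < 1/2`, `N ε ≤ η`, ) and
`f a t = stair ε (t - a/N) - stair ε (t - (a+1)/N)`. smooth: clear. nonneg: `stair_mono`. per: `stair_add_one` twice.
sum_one: telescoping sum (`Fin.sum_univ_eq_sum_range`, `Finset.sum_range_sub'`) `= stair ε t - stair ε (t - 1) = 1`.
mean: `f a t = f 0 (t - a/N)`, so by periodicity (`Function.Periodic.intervalIntegral_add_eq` after `intervalIntegral.integral_comp_sub_right`)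
all the integrals over `[0,1]` are equal, and their sum is `∫ 1 = 1`.
sq: by periodicity the integral over `[0,1]` of `(f a)^2` is the integral over `[1/2 + a/N, 3/2 + a/N]`, and on the subinterval
`[1/2 + a/N + ε, 1/2 + (a+1)/N]` one has `f a t = 1 - 0` (`stair_one`, `stair_zero`), so the integral is `≥ 1/N - ε ≥ (1-η)/N`
(if `1/N < ε` the claim is trivial since the integral is `≥ 0`: but `1/N - ε ≥ (1-η)/N` always, so treat the case `1/N ≤ ε` separately by nonnegativity).
-/

set_option autoImplicit false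

open MeasureTheory
open scoped ContDiff

namespace H63LE

private noncomputable def syg (ε c : ℝ) (t : ℝ) : ℝ := stair ε t - stair ε (t - c)

private theorem syg_smooth {ε : ℝ} (h0 : 0 < ε) (h1 : ε < 1 / 2) (c : ℝ) :
    ContDiff ℝ ∞ (syg ε c) := by
  unfold syg
  exact (stair_smooth h0 h1).sub ((stair_smooth h0 h1).comp (contDiff_id.sub contDiff_const))

private theorem syg_per (ε c : ℝ) : Function.Periodic (syg ε c) 1 := by
  intro t
  unfold syg
  rw [stair_add_one, show t + 1 - c = (t - c) + 1 by ring, stair_add_one]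
  ring

theorem exists_PS (N : ℕ) (hN : 1 ≤ N) (η : ℝ) (hη : 0 < η) : Nonempty (PS N η) := by
  have hNr : (1 : ℝ) ≤ N := by exact_mod_cast hN
  have hN0 : (0 : ℝ) < N := by linarith
  have hNi : (N : ℝ)⁻¹ ≤ 1 := inv_le_one_of_one_le₀ hNr
  have hNi0 : 0 < (N : ℝ)⁻¹ := inv_pos.2 hN0
  obtain ⟨ε, hε⟩ : ∃ ε : ℝ, ε = min (1 / 4) (η / (N + 1)) := ⟨_, rfl⟩
  have h0 : 0 < ε := by
    rw [hε]
    exact lt_min (by norm_num) (by positivity)
  have h1 : ε < 1 / 2 := by
    have : ε ≤ 1 / 4 := by rw [hε]; exact min_le_left _ _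
    linarith
  have h2 : N * ε ≤ η := by
    have h3 : ε ≤ η / (N + 1) := by rw [hε]; exact min_le_right _ _
    have h4 : N * ε ≤ N * (η / (N + 1)) := mul_le_mul_of_nonneg_left h3 hN0.le
    have h5 : N * (η / (N + 1)) ≤ η := by
      rw [← mul_div_assoc, div_le_iff₀ (by linarith)]
      nlinarith
    linarith
  -- the functions
  have hf : ∀ (a : ℕ) (t : ℝ), syg ε (N : ℝ)⁻¹ (t - a / N) =
      stair ε (t - a / N) - stair ε (t - (a + 1 : ℕ) / N) := by
    intro a t
    unfold syg
    congr 2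
    push_cast
    field_simp
    ring
  have hcont : Continuous (syg ε (N : ℝ)⁻¹) := (syg_smooth h0 h1 _).continuous
  have hint : ∀ a : ℕ, ∀ u v : ℝ,
      IntervalIntegrable (fun t => syg ε (N : ℝ)⁻¹ (t - a / N)) volume u v := fun a u v =>
    (hcont.comp (continuous_id.sub continuous_const)).intervalIntegrable u v
  have hsum : ∀ t : ℝ, ∑ a : Fin N, syg ε (N : ℝ)⁻¹ (t - (a : ℕ) / N) = 1 := by
    intro t
    rw [Fin.sum_univ_eq_sum_range (fun a => syg ε (N : ℝ)⁻¹ (t - (a : ℕ) / N)) N,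
      Finset.sum_congr rfl fun a _ => hf a t,
      Finset.sum_range_sub' (fun a : ℕ => stair ε (t - (a : ℝ) / N)) N]
    have h3 : t - (N : ℝ) / N = t - 1 := by rw [div_self hN0.ne']
    rw [h3, Nat.cast_zero, zero_div, sub_zero]
    have h4 := stair_add_one ε (t - 1)
    rw [sub_add_cancel] at h4
    rw [h4]
    ring
  have hshift : ∀ (g : ℝ → ℝ), Function.Periodic g 1 → ∀ c u : ℝ,
      ∫ t in (0 : ℝ)..1, g (t - c) = ∫ t in u..u + 1, g (t - c) := by
    intro g hg c u
    have hp : Function.Periodic (fun t => g (t - c)) 1 := by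
      intro t
      have := hg (t - c)
      show g (t + 1 - c) = g (t - c)
      rw [show t + 1 - c = (t - c) + 1 by ring]
      exact this
    have := hp.intervalIntegral_add_eq 0 u
    rw [zero_add] at this
    exact this
  have hper := syg_per ε (N : ℝ)⁻¹
  have hI : ∀ c : ℝ, ∫ t in (0 : ℝ)..1, syg ε (N : ℝ)⁻¹ (t - c) =
      ∫ t in (0 : ℝ)..1, syg ε (N : ℝ)⁻¹ t := by
    intro c
    rw [hshift _ hper c c, intervalIntegral.integral_comp_sub_right (fun t => syg ε (N : ℝ)⁻¹ t) c]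
    have h3 : c - c = 0 := sub_self c
    have h4 : c + 1 - c = 1 := by ring
    rw [h3, h4]
  have hmean : ∫ t in (0 : ℝ)..1, syg ε (N : ℝ)⁻¹ t = (N : ℝ)⁻¹ := by
    have h3 : ∫ t in (0 : ℝ)..1, ∑ a : Fin N, syg ε (N : ℝ)⁻¹ (t - (a : ℕ) / N) = 1 := by
      simp only [hsum]
      simp
    rw [intervalIntegral.integral_finsetSum fun (a : Fin N) _ => hint (a : ℕ) 0 1] at h3
    simp only [hI, Finset.sum_const, Finset.card_univ, Fintype.card_fin, nsmul_eq_mul] at h3
    rw [eq_inv_of_mul_eq_one_right h3]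
  refine ⟨⟨fun a t => syg ε (N : ℝ)⁻¹ (t - (a : ℕ) / N), ?_, ?_, hsum, ?_, ?_, ?_⟩⟩
  · intro a
    exact (syg_smooth h0 h1 _).comp (contDiff_id.sub contDiff_const)
  · intro a t
    unfold syg
    exact sub_nonneg.2 (stair_mono h0 (by linarith))
  · intro a t
    have := hper (t - (a : ℕ) / N)
    rw [show t + 1 - ((a : ℕ) : ℝ) / N = (t - (a : ℕ) / N) + 1 by ring]
    exact this
  · intro a
    rw [hI, hmean]
  · intro a
    obtain ⟨c, hc⟩ : ∃ c : ℝ, c = ((a : ℕ) : ℝ) / N := ⟨_, rfl⟩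
    show (1 - η) * (N : ℝ)⁻¹ ≤ ∫ t in (0 : ℝ)..1, syg ε (N : ℝ)⁻¹ (t - (a : ℕ) / N) ^ 2
    rw [← hc]
    have hp2 : Function.Periodic (fun t => syg ε (N : ℝ)⁻¹ t ^ 2) 1 := by
      intro t
      show syg ε (N : ℝ)⁻¹ (t + 1) ^ 2 = syg ε (N : ℝ)⁻¹ t ^ 2
      rw [hper t]
    have h3 := hshift (fun t => syg ε (N : ℝ)⁻¹ t ^ 2) hp2 c (1 / 2 + c)
    rw [h3]
    have hc2 : Continuous (fun t => syg ε (N : ℝ)⁻¹ (t - c) ^ 2) :=
      (hcont.comp (continuous_id.sub continuous_const)).pow 2
    rcases le_or_gt (N : ℝ)⁻¹ ε with h | h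
    · have h4 : 1 ≤ η := by
        have h5 : (N : ℝ) * (N : ℝ)⁻¹ ≤ N * ε := mul_le_mul_of_nonneg_left h hN0.le
        rw [mul_inv_cancel₀ hN0.ne'] at h5
        linarith
      have h6 : (1 - η) * (N : ℝ)⁻¹ ≤ 0 := mul_nonpos_of_nonpos_of_nonneg (by linarith) hNi0.le
      refine h6.trans (intervalIntegral.integral_nonneg (by linarith) fun t _ => sq_nonneg _)
    · have h7 : (1 - η) * (N : ℝ)⁻¹ ≤ (N : ℝ)⁻¹ - ε := by
        have h8 : N * ε * (N : ℝ)⁻¹ ≤ η * (N : ℝ)⁻¹ := mul_le_mul_of_nonneg_right h2 hNi0.le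
        have h9 : N * ε * (N : ℝ)⁻¹ = ε := by field_simp
        linarith
      refine h7.trans ?_
      have h10 : ∫ t in (1 / 2 + c + ε)..(1 / 2 + c + (N : ℝ)⁻¹), (1 : ℝ) = (N : ℝ)⁻¹ - ε := by
        rw [intervalIntegral.integral_const]
        simp
      rw [← h10]
      calc ∫ t in (1 / 2 + c + ε)..(1 / 2 + c + (N : ℝ)⁻¹), (1 : ℝ)
          ≤ ∫ t in (1 / 2 + c + ε)..(1 / 2 + c + (N : ℝ)⁻¹), syg ε (N : ℝ)⁻¹ (t - c) ^ 2 := by
            refine intervalIntegral.integral_mono_on (by linarith)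
              (continuous_const.intervalIntegrable _ _) (hc2.intervalIntegrable _ _) fun t ht => ?_
            have h11 : syg ε (N : ℝ)⁻¹ (t - c) = 1 := by
              unfold syg
              rw [stair_one h0 h1 (by linarith [ht.1]) (by linarith [ht.2]),
                stair_zero h0 h1 (by linarith [ht.1]) (by linarith [ht.2])]
              ring
            rw [h11]
            norm_num
        _ ≤ ∫ t in (1 / 2 + c)..(1 / 2 + c + 1), syg ε (N : ℝ)⁻¹ (t - c) ^ 2 := by
            refine intervalIntegral.integral_mono_interval (by linarith) (by linarith)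
              (by linarith) (Filter.Eventually.of_forall fun t => sq_nonneg _)
              (hc2.intervalIntegrable _ _)

end H63LE
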