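import Pool.Agent.H63.LE.Hh
import Pool.Agent.H50.RC.Bas
import Pool.Agent.H50.RC.Dt

/-!
S05864 PART E [H63 LE TAU]. The trace.
`sum_leaves`: for `y ∈ Vs`: `y w = ∑ g ∈ lev N (K - |w|), y (g ++ w)` (induction on `K - |w|`; see the proof of `norm_le_var` in H50/RC/Nrm.lean).
`tau_ge`: `dt n_w (T h_w w) = ∑_g dt n_w (T h_w (g ++ w)) ≥ ∑_g (dt n_w (h_w (g ++ w)) - 1/4) = N^(K-|w|) (1 - 1/N - 1/4) ≥ N^(K-|w|)/2` (`hh_leaf`, `hh_mem`,
`norm_hh_leaf_le`, `abs_dt_le`, `norm_dir`, `dt n n = 1`), sum over `w` of level `k`: `N^k N^(K-k)/2` (`sum_nds`, `card_lev`), over `k = 1..K`: `K N^K / 2`.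
-/

set_option autoImplicit false

namespace H63LE

open H50RC

section
variable {N K m : ℕ}

theorem sum_leaves {y : Y N} (hy : y ∈ Vs N K) {w : Nd N} (hw : w.length ≤ K) :
    y w = ∑ g ∈ lev N (K - w.length), y (g ++ w) := by
  have hy' : ∀ w : Nd N, w.length < K → y w = ∑ a, y (a :: w) := hy
  obtain ⟨j, hj⟩ : ∃ j, K - w.length = j := ⟨_, rfl⟩
  rw [hj]
  induction j generalizing w with
  | zero => simp [lev]
  | succ j ih =>
    have hlt : w.length < K := by omega
    have h3 := sum_lev_add (j := j) (k := 1) (fun g : Nd N => y (g ++ w))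
    have h4 := sum_lev_succ (k := 0) (fun v : Nd N => ∑ g ∈ lev N j, y (g ++ v ++ w))
    rw [hy' w hlt, h3]
    refine Eq.trans ?_ h4.symm
    simp only [lev, Finset.sum_singleton]
    refine Finset.sum_congr rfl fun a _ => ?_
    rw [ih (w := a :: w) (by simp only [List.length_cons]; omega)
      (by simp only [List.length_cons]; omega)]
    refine Finset.sum_congr rfl fun g _ => ?_
    rw [List.append_assoc]
    rfl

theorem tau_ge (hN : 4 ≤ N) (T : Y N → Y N) (hT : ∀ F ∈ Xs N K m, T F ∈ Vs N K)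
    (h : ∀ F ∈ Xs N K m, (∀ g ∈ lev N K, ‖F g‖ ≤ 1) → ∀ g ∈ lev N K, ‖T F g - F g‖ ≤ 1 / 4) :
    (K : ℝ) / 2 ≤ tau K m T := by
  have hN1 : 1 ≤ N := by omega
  have hN0 : (0 : ℝ) < N := by
    have : 0 < N := by omega
    exact_mod_cast this
  have hN4 : (4 : ℝ) ≤ N := by exact_mod_cast hN
  have hNi : (N : ℝ)⁻¹ ≤ 1 / 4 := by
    rw [one_div]
    exact inv_anti₀ (by norm_num) hN4
  have key : ∀ w ∈ nds N K, (N : ℝ) ^ (K - w.length) / 2 ≤ dt (dir m w.length) (T (hh K m w) w) := by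
    intro w hw
    have hX := hh_mem (m := m) hN1 hw
    have hwK := (mem_nds.1 hw).2
    rw [sum_leaves (hT _ hX) hwK, dt_sum_right]
    have h1 : ∀ g ∈ lev N (K - w.length), (1 : ℝ) / 2 ≤
        dt (dir m w.length) (T (hh K m w) (g ++ w)) := by
      intro g hg
      have hgK : g ++ w ∈ lev N K := by
        rw [mem_lev, List.length_append, mem_lev.1 hg]
        omega
      have h2 := h _ hX (fun g hg => norm_hh_leaf_le hN1 w hg) _ hgK
      have h3 : dt (dir m w.length) (hh K m w (g ++ w)) = 1 - (N : ℝ)⁻¹ := by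
        rw [hh_leaf w hgK]
        have s1 : w <:+ g ++ w := List.suffix_append g w
        have s2 : w.tail <:+ g ++ w := (List.tail_suffix w).trans s1
        rw [if_pos s1, if_pos s2, mul_one, ← Complex.real_smul, dt_smul_right, dt_self, norm_dir]
        ring
      have h4 : |dt (dir m w.length) (T (hh K m w) (g ++ w) - hh K m w (g ++ w))| ≤ 1 / 4 := by
        refine (abs_dt_le _ _).trans ?_
        rw [norm_dir, one_mul]
        exact h2
      rw [dt_sub_right, h3] at h4
      have h5 := (abs_le.1 h4).1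
      linarith
    calc (N : ℝ) ^ (K - w.length) / 2 = ∑ g ∈ lev N (K - w.length), (1 : ℝ) / 2 := by
          rw [Finset.sum_const, card_lev, nsmul_eq_mul]
          push_cast
          ring
      _ ≤ _ := Finset.sum_le_sum h1
  unfold tau
  have hP : (0 : ℝ) < (N : ℝ) ^ K := by positivity
  rw [le_inv_mul_iff₀ hP]
  refine le_trans (le_of_eq ?_) (Finset.sum_le_sum key)
  rw [sum_nds]
  have h2 : ∀ k ∈ Finset.range K, ∑ w ∈ lev N (k + 1), (N : ℝ) ^ (K - w.length) / 2 =
      (N : ℝ) ^ K / 2 := by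
    intro k hk
    have hk' := Finset.mem_range.1 hk
    have h3 : ∀ w ∈ lev N (k + 1), (N : ℝ) ^ (K - w.length) / 2 =
        (N : ℝ) ^ (K - (k + 1)) / 2 := by
      intro w hw
      rw [mem_lev.1 hw]
    rw [Finset.sum_congr rfl h3, Finset.sum_const, card_lev, nsmul_eq_mul]
    push_cast
    rw [mul_div_assoc', ← pow_add]
    congr 2
    omega
  rw [Finset.sum_congr rfl h2, Finset.sum_const, Finset.card_range, nsmul_eq_mul]
  ring

end

end H63LE
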