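import Pool.Agent.H63.LE.Lin
import Pool.Agent.H63.LE.Sys
import Pool.Agent.H63.LE.Tau

/-!
S05864 PART E: the embedding theorem.
-/

set_option autoImplicit false

open MeasureTheory
open scoped ContDiff

namespace H63LE

open H50RC

theorem lipB_of_fC {f : H50LP.LX Set.univ H50LP.o1} {c : ℝ} (h : Lp c (fC f)) : H50LP.lipB c f.1 := by
  have h1 := lipB_of_Lp h
  have h2 : (fun x (t : (Set.univ : Set ℝ)) => fC f ⟨x, t⟩) = f.1 := by
    funext x t
    rfl
  rw [h2] at h1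
  exact h1

theorem embMain' (N K m : ℕ) (hN : 4 ≤ N) : EmbStatement N K m := by
  have hN1 : 1 ≤ N := by omega
  set δ : ℝ := 1 / (1000 * ((K : ℝ) + 1)) with hδ
  have hK0 : (0 : ℝ) ≤ K := Nat.cast_nonneg K
  have hδ0 : 0 < δ := by positivity
  have hδ1 : (K : ℝ) * δ ≤ 1 / 1000 := by
    rw [hδ, mul_one_div, div_le_div_iff₀ (by positivity) (by norm_num)]
    nlinarith
  have hδ2 : (K : ℝ) * δ ≤ 1 := hδ1.trans (by norm_num)
  obtain ⟨S⟩ := exists_PS N hN1 δ hδ0
  obtain ⟨lam, hc⟩ := exists_lam S m K hδ0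
  obtain ⟨j, hj⟩ := exists_j S m lam hN1 hc hδ2
  obtain ⟨π, hπ⟩ := exists_pi S m lam K
  have hX : ∀ f, π f ∈ Xs N K m := by
    intro f
    rw [hπ f]
    exact piA_mem K m hN1 fun w => Av_children S m lam w (fC_continuous f)
  have hjL : ∀ F ∈ Xs N K m, ∀ c : ℝ, 0 ≤ c → (∀ g ∈ lev N K, ‖F g‖ ≤ c) → Lp (2 * c) (fC (j F)) := by
    intro F hF c hc0 hFc
    rw [hj F hF]
    exact JF_lp S m lam hN1 hc hδ2 hF hFc hc0
  have hnear : ∀ (f : H50LP.LX Set.univ H50LP.o1) (c : ℝ), Lp c (fC f) → ∀ g ∈ lev N K,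
      ‖π f g - Av S m lam g (fC f)‖ ≤ K * (δ * c) := by
    intro f c hf g hg
    rw [hπ f]
    exact piA_near K m (A := fun w => Av S m lam w (fC f)) (fun k hk v hv a => (hc k hk).c3 v hv a _ c hf) hg
  refine ⟨j, π, hX, fun F hF c hc0 hFc => lipB_of_fC (hjL F hF c hc0 hFc), ?_, ?_⟩
  · intro f c hf g hg
    have h1 := fC_lp hf
    have hc0 : 0 ≤ c := hf.1
    have h2 := hnear f _ h1 g hg
    have h3 := norm_Av_le S m lam g h1
    have h4 := (abs_le.1 (aw_near hc (w := g) (le_of_eq (mem_lev.1 hg)))).2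
    rw [mem_lev.1 hg] at h4
    have h5 : ‖π f g‖ ≤ ‖π f g - Av S m lam g (fC f)‖ + ‖Av S m lam g (fC f)‖ := by
      have := norm_add_le (π f g - Av S m lam g (fC f)) (Av S m lam g (fC f))
      rwa [sub_add_cancel] at this
    have h6 : aw S m lam g ≤ 1 + 1 / 1000 := by linarith
    have h7 : (K : ℝ) * (δ * (2 * c)) ≤ 1 / 1000 * (2 * c) := by
      rw [← mul_assoc]
      exact mul_le_mul_of_nonneg_right hδ1 (by positivity)
    have h8 : 2 * (2 * c) * aw S m lam g ≤ 2 * (2 * c) * (1 + 1 / 1000) :=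
      mul_le_mul_of_nonneg_left h6 (by positivity)
    linarith
  · refine tau_ge hN _ (fun F hF => ?_) (fun F hF hF1 g hg => ?_)
    · exact (hX (j F)).1
    · have h1 := hjL F hF 1 zero_le_one hF1
      have h2 := hnear (j F) _ h1 g hg
      have h3 := Av_near S m lam hN1 hc hδ0.le hδ0.le hδ1 hδ1 hF hF1 zero_le_one hg
      rw [← hj F hF] at h3
      have h5 : ‖π (j F) g - F g‖ ≤ ‖π (j F) g - Av S m lam g (fC (j F))‖ + ‖Av S m lam g (fC (j F)) - F g‖ := by
        have := norm_add_le (π (j F) g - Av S m lam g (fC (j F))) (Av S m lam g (fC (j F)) - F g)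
        rwa [sub_add_sub_cancel] at this
      have h7 : (K : ℝ) * (δ * (2 * 1)) ≤ 1 / 1000 * (2 * 1) := by
        rw [← mul_assoc]
        exact mul_le_mul_of_nonneg_right hδ1 (by norm_num)
      linarith

end H63LE
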