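import Pool.Agent.H63.LE.Defs

/-!
S05864 PART E [H63 LE ALG]. From averaged gradients `A w` (with `∑_a A (a::w) = N A w`) to an element of `X`.
`EE_children`: `∑_a (A (a::w) - A w) = 0`. `piA_mem`: `(N)^(K-|w|) • EE w`, `K - |w| = (K - |w| - 1) + 1`; `rr m y (a::w) = N^(K-|w|-1) dt (I n) (EE (a::w) - EE w) = 0`
(`dt_rot_self`). `EE_near`: induction on `w`: `EE (a::w) - A (a::w) = EE w - A w - dt (I n) (A (a::w) - A w) • (I n)` (`eq_basis`).
-/

set_option autoImplicit false

namespace H63LE

open H50RC

section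
variable {N : ℕ}

/-- the corrected averages -/
noncomputable def EE (m : ℕ) (A : Nd N → ℂ) : Nd N → ℂ
  | [] => A []
  | a :: w => EE m A w + dt (dir m (w.length + 1)) (A (a :: w) - A w) • dir m (w.length + 1)

/-- the element of `X` -/
noncomputable def piA (K m : ℕ) (A : Nd N → ℂ) : Y N := fun w => ((N : ℝ) ^ (K - w.length)) • EE m A w

theorem EE_add (m : ℕ) (A B : Nd N → ℂ) (w : Nd N) : EE m (fun w => A w + B w) w = EE m A w + EE m B w := by
  induction w with
  | nil => rfl
  | cons a w ih =>
    simp only [EE]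
    rw [ih, add_sub_add_comm, dt_add_right, add_smul]
    ring

theorem EE_smul (m : ℕ) (c : ℝ) (A : Nd N → ℂ) (w : Nd N) : EE m (fun w => c • A w) w = c • EE m A w := by
  induction w with
  | nil => rfl
  | cons a w ih =>
    simp only [EE]
    rw [ih, ← smul_sub, dt_smul_right, smul_add, smul_smul]

theorem EE_children (m : ℕ) {A : Nd N → ℂ} {w : Nd N} (hA : ∑ a, A (a :: w) = (N : ℝ) • A w) :
    ∑ a, EE m A (a :: w) = (N : ℝ) • EE m A w := by
  have h1 : ∑ a, (A (a :: w) - A w) = 0 := by
    rw [Finset.sum_sub_distrib, hA, Finset.sum_const, Finset.card_univ, Fintype.card_fin]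
    rw [Nat.cast_smul_eq_nsmul, sub_self]
  have h2 : ∀ a, EE m A (a :: w) = EE m A w +
      dt (dir m (w.length + 1)) (A (a :: w) - A w) • dir m (w.length + 1) := fun _ => rfl
  simp only [h2]
  rw [Finset.sum_add_distrib, ← Finset.sum_smul, ← dt_sum_right, h1, dt_zero_right, zero_smul, add_zero,
    Finset.sum_const, Finset.card_univ, Fintype.card_fin, Nat.cast_smul_eq_nsmul]

theorem piA_mem (K m : ℕ) {A : Nd N → ℂ} (hN : 1 ≤ N) (hA : ∀ w : Nd N, ∑ a, A (a :: w) = (N : ℝ) • A w) :
    piA K m A ∈ Xs N K m := by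
  have hN0 : (N : ℝ) ≠ 0 := by
    have : 0 < N := hN
    exact_mod_cast this.ne'
  refine ⟨fun w hw => ?_, fun q hq => ?_⟩
  · obtain ⟨j, hj⟩ : ∃ j, K - w.length = j + 1 := ⟨K - w.length - 1, by omega⟩
    have hj' : ∀ a : Fin N, K - (a :: w).length = j := fun a => by
      simp only [List.length_cons]
      omega
    simp only [piA, hj, hj']
    rw [← Finset.smul_sum, EE_children m (hA w), smul_smul, pow_succ]
  · obtain ⟨h1, h2⟩ := mem_nds.1 hq
    cases q with
    | nil => exact absurd rfl h1
    | cons a w =>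
      simp only [List.length_cons] at h2
      obtain ⟨j, hj⟩ : ∃ j, K - w.length = j + 1 := ⟨K - w.length - 1, by omega⟩
      have hj' : K - (a :: w).length = j := by
        simp only [List.length_cons]
        omega
      have h3 : piA K m A (a :: w) - (N : ℝ)⁻¹ • piA K m A w =
          ((N : ℝ) ^ j * dt (dir m (w.length + 1)) (A (a :: w) - A w)) • dir m (w.length + 1) := by
        simp only [piA, hj, hj', EE]
        rw [smul_smul, pow_succ, smul_add, smul_smul]
        have h4 : (N : ℝ)⁻¹ * ((N : ℝ) ^ j * N) = (N : ℝ) ^ j := by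
          field_simp
        rw [h4]
        abel
      show dt (Complex.I * dir m (a :: w).length) (piA K m A (a :: w) - (N : ℝ)⁻¹ • piA K m A (a :: w).tail) = 0
      rw [List.tail_cons, h3, dt_smul_right, List.length_cons, dt_rot_self, mul_zero]

theorem piA_near (K m : ℕ) {A : Nd N → ℂ} {r : ℝ}
    (hA : ∀ k < K, ∀ v ∈ lev N k, ∀ a, |dt (Complex.I * dir m (k + 1)) (A (a :: v) - A v)| ≤ r)
    {g : Nd N} (hg : g ∈ lev N K) : ‖piA K m A g - A g‖ ≤ K * r := by
  have h : ∀ w : Nd N, w.length ≤ K → ‖EE m A w - A w‖ ≤ w.length * r := by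
    intro w
    induction w with
    | nil =>
      intro _
      simp [EE]
    | cons a w ih =>
      intro hw
      simp only [List.length_cons] at hw
      have h1 := ih (by omega)
      have h2 := hA w.length (by omega) w (mem_lev.2 rfl) a
      have h3 : EE m A (a :: w) - A (a :: w) = (EE m A w - A w) -
          dt (Complex.I * dir m (w.length + 1)) (A (a :: w) - A w) • (Complex.I * dir m (w.length + 1)) := by
        have h4 := eq_basis (norm_dir m (w.length + 1)) (A (a :: w) - A w)
        simp only [EE]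
        linear_combination (-1 : ℂ) * h4
      rw [h3]
      refine (norm_sub_le _ _).trans ?_
      rw [norm_smul, norm_I_dir, mul_one, Real.norm_eq_abs]
      simp only [List.length_cons]
      push_cast
      linarith
  have h1 := h g (le_of_eq (mem_lev.1 hg))
  rw [mem_lev.1 hg] at h1
  have h2 : piA K m A g = EE m A g := by
    simp only [piA, mem_lev.1 hg, Nat.sub_self, pow_zero, one_smul]
  rw [h2]
  exact h1

end

end H63LE
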