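import Pool.Agent.H63.LE.Defs

/-!
S05864 PART E [H63 LE AN1]. Integration by parts against a Lipschitz function.
`f` is `c`-Lipschitz (`LipschitzWith ⟨c, hc⟩ f`, `LipschitzWith.of_dist_le_mul`), `g` is smooth with compact support, hence Lipschitz
(`ContDiff.lipschitzWith_of_hasCompactSupport`). Mathlib: `LipschitzWith.integral_lineDeriv_mul_eq hf hg h'g v :
∫ lineDeriv ℝ f x v * g x = ∫ lineDeriv ℝ g x (-v) * f x` and `DifferentiableAt.lineDeriv_eq_fderiv`, `norm_lineDeriv_le_of_lipschitz`.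
`bi`: `∫ fderiv g z u * f z = - ∫ lineDeriv f z u * g z`, absolute value `≤ ∫ c ‖u‖ |g z|`.
`parts`: the same with `lineDeriv f = fderiv f`.
-/

set_option autoImplicit false

open MeasureTheory
open scoped ContDiff

namespace H63LE

open H50RC

private theorem an1_lip {f : ℂ → ℝ} {c : ℝ} (hc : 0 ≤ c) (hf : ∀ z w, |f z - f w| ≤ c * ‖z - w‖) :
    LipschitzWith ⟨c, hc⟩ f :=
  LipschitzWith.of_dist_le_mul fun z w => by
    rw [Real.dist_eq, dist_eq_norm]
    exact hf z w

private theorem an1_core {f g : ℂ → ℝ} {c : ℝ} (hc : 0 ≤ c)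
    (hf : ∀ z w, |f z - f w| ≤ c * ‖z - w‖)
    (hg : ContDiff ℝ ∞ g) (hs : HasCompactSupport g) (u : ℂ) :
    ∫ z, fderiv ℝ g z u * f z = -∫ z, lineDeriv ℝ f z u * g z := by
  obtain ⟨D, hD⟩ := ContDiff.lipschitzWith_of_hasCompactSupport hs hg (by simp)
  have h1 := LipschitzWith.integral_lineDeriv_mul_eq (μ := volume) (an1_lip hc hf) hD hs u
  rw [h1, ← integral_neg]
  refine integral_congr_ae (Filter.Eventually.of_forall fun z => ?_)
  have h2 : lineDeriv ℝ g z (-u) = fderiv ℝ g z (-u) :=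
    (hg.differentiable (by simp) z).lineDeriv_eq_fderiv
  simp only [h2, map_neg]
  ring

theorem bi {f g : ℂ → ℝ} {c : ℝ} (hc : 0 ≤ c) (hf : ∀ z w, |f z - f w| ≤ c * ‖z - w‖)
    (hg : ContDiff ℝ ∞ g) (hs : HasCompactSupport g) (u : ℂ) :
    |∫ z, fderiv ℝ g z u * f z| ≤ c * ‖u‖ * ∫ z, |g z| := by
  rw [an1_core hc hf hg hs, abs_neg, ← integral_const_mul]
  refine abs_integral_le_integral_abs.trans ?_
  have hI : Integrable (fun z => |g z|) :=
    (hg.continuous.integrable_of_hasCompactSupport hs).abs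
  refine integral_mono_of_nonneg (Filter.Eventually.of_forall fun _ => abs_nonneg _)
    (hI.const_mul _) (Filter.Eventually.of_forall fun z => ?_)
  simp only [abs_mul]
  refine mul_le_mul_of_nonneg_right ?_ (abs_nonneg _)
  have h1 := norm_lineDeriv_le_of_lipschitz ℝ (x₀ := z) (v := u) (an1_lip hc hf)
  rwa [Real.norm_eq_abs] at h1

theorem parts {f g : ℂ → ℝ} {c : ℝ} (hc : 0 ≤ c) (hf : ∀ z w, |f z - f w| ≤ c * ‖z - w‖) (hfs : Differentiable ℝ f)
    (hg : ContDiff ℝ ∞ g) (hs : HasCompactSupport g) (u : ℂ) :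
    ∫ z, fderiv ℝ g z u * f z = -∫ z, fderiv ℝ f z u * g z := by
  rw [an1_core hc hf hg hs]
  congr 1
  refine integral_congr_ae (Filter.Eventually.of_forall fun z => ?_)
  simp only [(hfs z).lineDeriv_eq_fderiv]

end H63LE
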