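import Pool.Agent.H63.LE.An1

/-!
S05864 PART E [H63 LE AN2]. Oscillating integrals.
`osc`: `G z = g z * H (l * dt n z)` is smooth with compact support, `fderiv G z n = fderiv g z n * H(..) + g z * h(..) * l` (as `dt n n = 1`, `ip_apply`), so
`g z * h(..) = l⁻¹ * (fderiv G z n - fderiv g z n * H(..))`; use `bi` for `G` and `∫ |G| ≤ B ∫ |g|`. `osc_lp`: `|f z| ≤ c ‖z‖`. `osc_one`: `osc` with `f = 1`, `c = 0`.
-/

set_option autoImplicit false

open MeasureTheory
open scoped ContDiff

namespace H63LE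

open H50RC

private theorem an2_n {n : ℂ} (hn : ‖n‖ = 1) : ip n n = 1 := by
  rw [ip_apply]
  have h1 : ‖n‖ ^ 2 = n.re ^ 2 + n.im ^ 2 := by
    rw [← Complex.normSq_eq_norm_sq, Complex.normSq_apply]
    ring
  rw [hn] at h1
  unfold dt
  nlinarith

private theorem an2_G {g H : ℂ → ℝ} {h : ℂ → ℝ} (z n : ℂ) (hg : DifferentiableAt ℝ g z)
    {H' : ℂ →L[ℝ] ℝ} (hH : HasFDerivAt H H' z) (hn : H' n = h z) :
    fderiv ℝ (fun z => g z * H z) z n = fderiv ℝ g z n * H z + g z * h z := by
  have h1 : HasFDerivAt (fun z => g z * H z) _ z := hg.hasFDerivAt.mul hH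
  rw [h1.fderiv]
  simp only [_root_.add_apply, _root_.smul_apply, smul_eq_mul, hn]
  ring

theorem osc {f g : ℂ → ℝ} {c : ℝ} (hc : 0 ≤ c) (hf : ∀ z w, |f z - f w| ≤ c * ‖z - w‖)
    (hg : ContDiff ℝ ∞ g) (hs : HasCompactSupport g) {H h : ℝ → ℝ} {B : ℝ} (hH : ContDiff ℝ ∞ H)
    (hd : ∀ t, HasDerivAt H (h t) t) (hB : ∀ t, |H t| ≤ B) {n : ℂ} (hn : ‖n‖ = 1) {l : ℝ} (hl : 0 < l) :
    |∫ z, g z * h (l * dt n z) * f z| ≤ l⁻¹ * (B * (c * ∫ z, |g z|) + B * ∫ z, |fderiv ℝ g z n| * |f z|) := by
  have hB0 : 0 ≤ B := (abs_nonneg _).trans (hB 0)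
  have hfc : Continuous f := by
    have h1 : LipschitzWith ⟨c, hc⟩ f := LipschitzWith.of_dist_le_mul fun z w => by
      rw [Real.dist_eq, dist_eq_norm]
      exact hf z w
    exact h1.continuous
  have hK : ContDiff ℝ ∞ (fun z => H (l * dt n z)) := by
    have h1 : (fun z => H (l * dt n z)) = fun z => H (l * ip n z) := by
      funext z
      rw [ip_apply]
    rw [h1]
    exact hH.comp (contDiff_const.mul (ip n).contDiff)
  have hG : ContDiff ℝ ∞ (fun z => g z * H (l * dt n z)) := hg.mul hK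
  have hGs : HasCompactSupport (fun z => g z * H (l * dt n z)) := hs.mul_right
  have hder : ∀ z, fderiv ℝ (fun z => g z * H (l * dt n z)) z n =
      fderiv ℝ g z n * H (l * dt n z) + g z * (h (l * dt n z) * l) := by
    intro z
    have h1 : HasFDerivAt (fun z => l * dt n z) (l • ip n) z := by
      have h2 : (fun z => l * dt n z) = fun z => (l • ip n) z := by
        funext w
        rw [_root_.smul_apply, ip_apply, smul_eq_mul]
      rw [h2]
      exact (l • ip n).hasFDerivAt
    have h3 : HasFDerivAt (fun z => H (l * dt n z)) (h (l * dt n z) • (l • ip n)) z :=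
      (hd (l * dt n z)).comp_hasFDerivAt z h1
    refine an2_G (h := fun z => h (l * dt n z) * l) z n (hg.differentiable (by simp) z) h3 ?_
    simp only [_root_.smul_apply, smul_eq_mul, an2_n hn, mul_one]
  have hcg : Continuous (fun z => fderiv ℝ g z n) :=
    (hg.continuous_fderiv (by simp)).clm_apply continuous_const
  have hsg : HasCompactSupport (fun z => fderiv ℝ g z n) := hs.fderiv_apply ℝ _
  have i1 : Integrable (fun z => fderiv ℝ (fun z => g z * H (l * dt n z)) z n * f z) :=
    (((hG.continuous_fderiv (by simp)).clm_apply continuous_const).mul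
      hfc).integrable_of_hasCompactSupport (HasCompactSupport.mul_right (hGs.fderiv_apply ℝ _))
  have i2 : Integrable (fun z => fderiv ℝ g z n * H (l * dt n z) * f z) :=
    ((hcg.mul hK.continuous).mul hfc).integrable_of_hasCompactSupport
      (HasCompactSupport.mul_right (HasCompactSupport.mul_right hsg))
  have e : ∫ z, g z * h (l * dt n z) * f z = l⁻¹ *
      ((∫ z, fderiv ℝ (fun z => g z * H (l * dt n z)) z n * f z) -
        ∫ z, fderiv ℝ g z n * H (l * dt n z) * f z) := by
    rw [← integral_sub i1 i2, ← integral_const_mul]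
    refine integral_congr_ae (Filter.Eventually.of_forall fun z => ?_)
    simp only [hder]
    field_simp
    ring
  rw [e, abs_mul, abs_of_pos (inv_pos.2 hl)]
  refine mul_le_mul_of_nonneg_left ?_ (inv_nonneg.2 hl.le)
  refine (abs_sub _ _).trans (add_le_add ?_ ?_)
  · refine (bi hc hf hG hGs n).trans ?_
    rw [hn, mul_one]
    have h1 : ∫ z, |g z * H (l * dt n z)| ≤ B * ∫ z, |g z| := by
      rw [← integral_const_mul]
      refine integral_mono_of_nonneg (Filter.Eventually.of_forall fun _ => abs_nonneg _)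
        (((hg.continuous.integrable_of_hasCompactSupport hs).abs).const_mul B)
        (Filter.Eventually.of_forall fun z => ?_)
      simp only [abs_mul]
      rw [mul_comm]
      exact mul_le_mul_of_nonneg_right (hB _) (abs_nonneg _)
    calc c * ∫ z, |g z * H (l * dt n z)| ≤ c * (B * ∫ z, |g z|) :=
          mul_le_mul_of_nonneg_left h1 hc
      _ = _ := by ring
  · refine abs_integral_le_integral_abs.trans ?_
    rw [← integral_const_mul]
    have i3 : Integrable (fun z => |fderiv ℝ g z n| * |f z|) := by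
      have h1 : Integrable (fun z => fderiv ℝ g z n * f z) :=
        (hcg.mul hfc).integrable_of_hasCompactSupport (HasCompactSupport.mul_right hsg)
      refine h1.abs.congr (Filter.Eventually.of_forall fun z => ?_)
      simp only [abs_mul]
    refine integral_mono_of_nonneg (Filter.Eventually.of_forall fun _ => abs_nonneg _)
      (i3.const_mul B) (Filter.Eventually.of_forall fun z => ?_)
    simp only [abs_mul]
    have h1 : |fderiv ℝ g z n| * |H (l * dt n z)| ≤ |fderiv ℝ g z n| * B :=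
      mul_le_mul_of_nonneg_left (hB _) (abs_nonneg _)
    calc |fderiv ℝ g z n| * |H (l * dt n z)| * |f z| ≤ |fderiv ℝ g z n| * B * |f z| :=
          mul_le_mul_of_nonneg_right h1 (abs_nonneg _)
      _ = _ := by ring

theorem osc_lp {f g : ℂ → ℝ} {c : ℝ} (hf : Lp c f)
    (hg : ContDiff ℝ ∞ g) (hs : HasCompactSupport g) {H h : ℝ → ℝ} {B : ℝ} (hH : ContDiff ℝ ∞ H)
    (hd : ∀ t, HasDerivAt H (h t) t) (hB : ∀ t, |H t| ≤ B) {n : ℂ} (hn : ‖n‖ = 1) {l : ℝ} (hl : 0 < l) :
    |∫ z, g z * h (l * dt n z) * f z| ≤ l⁻¹ * (B * (∫ z, |g z|) + B * ∫ z, |fderiv ℝ g z n| * ‖z‖) * c := by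
  obtain ⟨hc, h0, hfl⟩ := hf
  have hB0 : 0 ≤ B := (abs_nonneg _).trans (hB 0)
  have h1 := osc hc hfl hg hs hH hd hB hn hl
  refine h1.trans ?_
  have hcg : Continuous (fun z => fderiv ℝ g z n) :=
    (hg.continuous_fderiv (by simp)).clm_apply continuous_const
  have hsg : HasCompactSupport (fun z => fderiv ℝ g z n) := hs.fderiv_apply ℝ _
  have i3 : Integrable (fun z => |fderiv ℝ g z n| * ‖z‖) := by
    have h1 : Integrable (fun z => fderiv ℝ g z n * ‖z‖) :=
      (hcg.mul continuous_norm).integrable_of_hasCompactSupport (HasCompactSupport.mul_right hsg)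
    refine h1.abs.congr (Filter.Eventually.of_forall fun z => ?_)
    simp only [abs_mul, abs_norm]
  have h2 : ∫ z, |fderiv ℝ g z n| * |f z| ≤ c * ∫ z, |fderiv ℝ g z n| * ‖z‖ := by
    rw [← integral_const_mul]
    refine integral_mono_of_nonneg
      (Filter.Eventually.of_forall fun _ => mul_nonneg (abs_nonneg _) (abs_nonneg _))
      (i3.const_mul c) (Filter.Eventually.of_forall fun z => ?_)
    simp only
    have h3 := hfl z 0
    rw [h0, sub_zero, sub_zero] at h3
    calc |fderiv ℝ g z n| * |f z| ≤ |fderiv ℝ g z n| * (c * ‖z‖) :=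
          mul_le_mul_of_nonneg_left h3 (abs_nonneg _)
      _ = _ := by ring
  have h4 := mul_le_mul_of_nonneg_left h2 hB0
  rw [mul_assoc]
  refine mul_le_mul_of_nonneg_left ?_ (inv_nonneg.2 hl.le)
  linarith

theorem osc_one {g : ℂ → ℝ}
    (hg : ContDiff ℝ ∞ g) (hs : HasCompactSupport g) {H h : ℝ → ℝ} {B : ℝ} (hH : ContDiff ℝ ∞ H)
    (hd : ∀ t, HasDerivAt H (h t) t) (hB : ∀ t, |H t| ≤ B) {n : ℂ} (hn : ‖n‖ = 1) {l : ℝ} (hl : 0 < l) :
    |∫ z, g z * h (l * dt n z)| ≤ l⁻¹ * (B * ∫ z, |fderiv ℝ g z n|) := by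
  have h1 := osc (f := fun _ => 1) (c := 0) le_rfl (by simp) hg hs hH hd hB hn hl
  simpa using h1

end H63LE
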