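import Pool.Agent.H63.LE.Defs

/-!
S05864 PART E [H63 LE EE]. The averages `ee K y w = N^(-(K-|w|)) y w` of an additive function. `N ≥ 1`.
`ee_children`: additivity, `K - |w| = (K - |w| - 1) + 1`. `ee_step`: `rr m y (a::w) = 0` says that `ee (a::w) - ee w` is orthogonal to `I n`
(`eq_basis`, `norm_dir`; `ee (a::w) - ee w = N^(-(K-|w|-1)) (y (a::w) - y w / N)`). `ss_sum`: `ee_children`. `norm_ee_le`: induction from the leaves.
`abs_ss_le`: `abs_dt_le`.
-/

set_option autoImplicit false

namespace H63LE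

open H50RC

section
variable {N K m : ℕ}

theorem ee_leaf (y : Y N) {g : Nd N} (hg : g ∈ lev N K) : ee K y g = y g := by
  unfold ee
  rw [mem_lev.1 hg, Nat.sub_self, pow_zero, inv_one, one_smul]

private theorem pow_split (N : ℕ) {w : Nd N} (hw : w.length < K) :
    (N : ℝ) ^ (K - w.length) = (N : ℝ) ^ (K - (w.length + 1)) * N := by
  rw [← pow_succ]
  congr 1
  omega

theorem ee_children (hN : 1 ≤ N) {y : Y N} (hy : y ∈ Vs N K) {w : Nd N} (hw : w.length < K) :
    ∑ a, ee K y (a :: w) = (N : ℝ) • ee K y w := by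
  have hN0 : (N : ℝ) ≠ 0 := by
    have : (0 : ℝ) < N := by exact_mod_cast hN
    exact this.ne'
  have h1 : y w = ∑ a, y (a :: w) := hy w hw
  unfold ee
  simp only [List.length_cons]
  rw [← Finset.smul_sum, ← h1, pow_split N hw, smul_smul]
  congr 1
  rw [mul_inv, mul_comm, mul_assoc, inv_mul_cancel₀ hN0, mul_one]

theorem ee_step (hN : 1 ≤ N) {y : Y N} (hy : y ∈ Xs N K m) {w : Nd N} (hw : w.length < K) (a : Fin N) :
    ee K y (a :: w) - ee K y w = ss m K y (a :: w) • dir m (w.length + 1) := by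
  have hN0 : (N : ℝ) ≠ 0 := by
    have : (0 : ℝ) < N := by exact_mod_cast hN
    exact this.ne'
  have h1 : rr m y (a :: w) = 0 := hy.2 (a :: w) (mem_nds.2 ⟨by simp, by simpa using hw⟩)
  have h2 : ee K y (a :: w) - ee K y w =
      ((N : ℝ) ^ (K - (w.length + 1)))⁻¹ • (y (a :: w) - (N : ℝ)⁻¹ • y w) := by
    unfold ee
    rw [List.length_cons, pow_split N hw, smul_sub, smul_smul, mul_inv]
  have h3 := eq_basis (norm_dir m (w.length + 1)) (ee K y (a :: w) - ee K y w)
  have h4 : dt (Complex.I * dir m (w.length + 1)) (ee K y (a :: w) - ee K y w) = 0 := by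
    rw [h2, dt_smul_right]
    unfold rr at h1
    rw [List.length_cons, List.tail_cons] at h1
    rw [h1, mul_zero]
  rw [h4, zero_smul, add_zero] at h3
  exact h3

theorem ss_sum (hN : 1 ≤ N) {y : Y N} (hy : y ∈ Vs N K) {w : Nd N} (hw : w.length < K) :
    ∑ a, ss m K y (a :: w) = 0 := by
  unfold ss
  simp only [List.length_cons, List.tail_cons]
  rw [← dt_sum_right, Finset.sum_sub_distrib, ee_children hN hy hw, Finset.sum_const,
    Finset.card_univ, Fintype.card_fin, ← Nat.cast_smul_eq_nsmul ℝ, sub_self, dt_zero_right]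

theorem norm_ee_le (hN : 1 ≤ N) {y : Y N} (hy : y ∈ Vs N K) {c : ℝ} (hc : ∀ g ∈ lev N K, ‖y g‖ ≤ c) {w : Nd N}
    (hw : w.length ≤ K) : ‖ee K y w‖ ≤ c := by
  have hN0 : (0 : ℝ) < N := by exact_mod_cast hN
  have key : ∀ d : ℕ, ∀ w : Nd N, w.length + d = K → ‖ee K y w‖ ≤ c := by
    intro d
    induction d with
    | zero =>
      intro w hw
      have h1 : w ∈ lev N K := mem_lev.2 hw
      rw [ee_leaf y h1]
      exact hc w h1
    | succ d ih =>
      intro w hw
      have h1 := ee_children hN hy (w := w) (by omega)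
      have h2 : (N : ℝ) * ‖ee K y w‖ ≤ N * c := by
        calc (N : ℝ) * ‖ee K y w‖ = ‖(N : ℝ) • ee K y w‖ := by
              rw [norm_smul, Real.norm_of_nonneg hN0.le]
          _ = ‖∑ a, ee K y (a :: w)‖ := by rw [h1]
          _ ≤ ∑ a : Fin N, ‖ee K y (a :: w)‖ := norm_sum_le _ _
          _ ≤ ∑ _a : Fin N, c := Finset.sum_le_sum fun a _ => ih (a :: w) (by
              rw [List.length_cons]
              omega)
          _ = N * c := by
              rw [Finset.sum_const, Finset.card_univ, Fintype.card_fin, nsmul_eq_mul]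
      exact le_of_mul_le_mul_left h2 hN0
  exact key (K - w.length) w (by omega)

theorem abs_ss_le (hN : 1 ≤ N) {y : Y N} (hy : y ∈ Vs N K) {c : ℝ} (hc : ∀ g ∈ lev N K, ‖y g‖ ≤ c) {w : Nd N}
    (hw : w.length < K) (a : Fin N) : |ss m K y (a :: w)| ≤ 2 * c := by
  unfold ss
  refine (abs_dt_le _ _).trans ?_
  rw [norm_dir, one_mul, List.tail_cons]
  have h1 := norm_ee_le hN hy hc (w := a :: w) (by simpa using hw)
  have h2 := norm_ee_le hN hy hc (w := w) hw.le
  have h3 := norm_sub_le (ee K y (a :: w)) (ee K y w)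
  linarith

theorem ee_add (y y' : Y N) (w : Nd N) : ee K (y + y') w = ee K y w + ee K y' w := by
  simp [ee, smul_add, mul_add]

theorem ee_smul (r : ℝ) (y : Y N) (w : Nd N) : ee K (r • y) w = r • ee K y w := by
  simp only [ee, Pi.smul_apply]
  rw [smul_comm]

end

end H63LE
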