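import Pool.Agent.H63.LE.PsiB
import Pool.Agent.H63.LE.Ee

/-!
S05864 PART E [H63 LE JD2]. The main part `MG K k y z = ∑_(|w|=k) Psi w z • ee y w` of the gradient.
`MG_succ`: `MG (k+1) z - MG k z = ∑_v ∑_a (Psi v z f_a) • (ee (a::v) - ee v)` (`sum_lev_succ`, `∑_a f_a = 1`) `= ∑ (Psi v z f_a ss(a::v)) • n` (`ee_step`, `|v| = k`).
`norm_MG_le`: `≤ ∑ Psi c = c` (`Psi_sum`, `ee_leaf`). `MG_sub_leaf`: `y g = ∑_g' Psi g' z • y g`, the term `g' = g` vanishes, the others are `≤ Psi g' 2c`.
-/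

set_option autoImplicit false

open MeasureTheory
open scoped ContDiff

namespace H63LE

open H50RC

section
variable {N : ℕ} {η : ℝ} (S : PS N η) (m : ℕ) (lam : ℕ → ℝ)

/-- the main part of the gradient -/
noncomputable def MG (K k : ℕ) (y : Y N) (z : ℂ) : ℂ := ∑ w ∈ lev N k, Psi S m lam w z • ee K y w

theorem MG_succ (hN : 1 ≤ N) {K k : ℕ} (hk : k < K) {y : Y N} (hy : y ∈ Xs N K m) (z : ℂ) :
    MG S m lam K (k + 1) y z = MG S m lam K k y z + (∑ v ∈ lev N k, ∑ a, ss m K y (a :: v) *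
      (Psi S m lam v z * S.f a (lam (k + 1) * dt (dir m (k + 1)) z))) • dir m (k + 1) := by
  unfold MG
  rw [sum_lev_succ, Finset.sum_smul, ← Finset.sum_add_distrib]
  refine Finset.sum_congr rfl fun v hv => ?_
  have hv' : v.length = k := mem_lev.1 hv
  have h1 : ∀ a : Fin N, Psi S m lam (a :: v) z • ee K y (a :: v) = Psi S m lam (a :: v) z • ee K y v +
      (ss m K y (a :: v) * (Psi S m lam v z * S.f a (lam (k + 1) * dt (dir m (k + 1)) z))) •
        dir m (k + 1) := by
    intro a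
    have h2 := ee_step hN hy (w := v) (by omega) a
    rw [hv'] at h2
    have h3 : ee K y (a :: v) = ee K y v + ss m K y (a :: v) • dir m (k + 1) := by
      rw [← h2]
      abel
    have h4 : Psi S m lam (a :: v) z =
        Psi S m lam v z * S.f a (lam (k + 1) * dt (dir m (k + 1)) z) := by
      rw [← hv']
      rfl
    rw [h3, smul_add, smul_smul, h4, mul_comm (ss m K y (a :: v))]
  rw [Finset.sum_congr rfl fun a _ => h1 a, Finset.sum_add_distrib, ← Finset.sum_smul, Psi_children,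
    Finset.sum_smul]

theorem norm_MG_le {K : ℕ} {c : ℝ} {y : Y N} (hyc : ∀ g ∈ lev N K, ‖y g‖ ≤ c) (z : ℂ) :
    ‖MG S m lam K K y z‖ ≤ c := by
  unfold MG
  calc ‖∑ w ∈ lev N K, Psi S m lam w z • ee K y w‖ ≤ ∑ w ∈ lev N K, Psi S m lam w z * c := by
        refine norm_sum_le_of_le _ fun w hw => ?_
        rw [norm_smul, Real.norm_eq_abs, abs_of_nonneg (Psi_nonneg S m lam w z), ee_leaf y hw]
        exact mul_le_mul_of_nonneg_left (hyc w hw) (Psi_nonneg S m lam w z)
    _ = c := by rw [← Finset.sum_mul, Psi_sum, one_mul]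

/-- the main part near a leaf -/
theorem MG_sub_leaf {K : ℕ} {c : ℝ} {y : Y N} (hyc : ∀ g ∈ lev N K, ‖y g‖ ≤ c) {g : Nd N} (hg : g ∈ lev N K) (z : ℂ) :
    ‖MG S m lam K K y z - y g‖ ≤ 2 * c * (1 - Psi S m lam g z) := by
  classical
  have h1 : MG S m lam K K y z - y g = ∑ w ∈ lev N K, Psi S m lam w z • (y w - y g) := by
    have h2 : y g = ∑ w ∈ lev N K, Psi S m lam w z • y g := by
      rw [← Finset.sum_smul, Psi_sum, one_smul]
    have h3 : MG S m lam K K y z = ∑ w ∈ lev N K, Psi S m lam w z • y w := by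
      unfold MG
      exact Finset.sum_congr rfl fun w hw => by rw [ee_leaf y hw]
    conv_lhs => rw [h2, h3]
    rw [← Finset.sum_sub_distrib]
    exact Finset.sum_congr rfl fun w _ => by rw [smul_sub]
  rw [h1]
  calc ‖∑ w ∈ lev N K, Psi S m lam w z • (y w - y g)‖
      ≤ ∑ w ∈ lev N K, (Psi S m lam w z * (2 * c) - if w = g then Psi S m lam g z * (2 * c) else 0) := by
        refine norm_sum_le_of_le _ fun w hw => ?_
        split_ifs with h
        · rw [h]
          simp
        · rw [norm_smul, Real.norm_eq_abs, abs_of_nonneg (Psi_nonneg S m lam w z), sub_zero]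
          refine mul_le_mul_of_nonneg_left ?_ (Psi_nonneg S m lam w z)
          refine (norm_sub_le _ _).trans ?_
          linarith [hyc w hw, hyc g hg]
    _ = 2 * c * (1 - Psi S m lam g z) := by
        rw [Finset.sum_sub_distrib, Finset.sum_ite_eq' , if_pos hg, ← Finset.sum_mul, Psi_sum]
        ring

end

end H63LE
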