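import Pool.Agent.H63.LE.Jd1
import Pool.Agent.H63.LE.Jd2

/-!
S05864 PART E [H63 LE JD3]. 
`JF_fderiv_near`: induction on `k` (`k = 0`: both sides equal `dt (ee y []) u`); at the step (`JF_fderiv_succ`, `MG_succ`) the `Psi v (f_a - 1/N) ss dt n u` terms are exactly
`dt (MG (k+1) - MG k) u` because `∑_a ss (a::v) = 0` (`ss_sum`), and the remaining terms are `≤ ∑_v ∑_a 2 c λ⁻¹ |fderiv (Psi v) z u| ≤ N^(k+1) * 2 c λ⁻¹ * δ λ / (2 N^(k+1)) = δ c`
(`Cond.c1`, `card_lev`, `abs_p_le`, `abs_ss_le`).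
`JF_fderiv_le`: `|dt (MG) u| ≤ c` (`abs_dt_le`, `norm_MG_le`), and `K δ c ≤ c`.
-/

set_option autoImplicit false

open MeasureTheory
open scoped ContDiff

namespace H63LE

open H50RC

section
variable {N : ℕ} {η : ℝ} (S : PS N η) (m : ℕ) (lam : ℕ → ℝ)

theorem JF_fderiv_near (hN : 1 ≤ N) {K k : ℕ} (hk : k ≤ K) {δ c : ℝ} (hc : ∀ i < K, Cond S m lam δ i) {y : Y N}
    (hy : y ∈ Xs N K m) (hyc : ∀ g ∈ lev N K, ‖y g‖ ≤ c) (h0 : 0 ≤ c) (z : ℂ) {u : ℂ} (hu : ‖u‖ ≤ 1) :
    |fderiv ℝ (JF S m lam K k y) z u - dt (MG S m lam K k y z) u| ≤ k * (δ * c) := by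
  induction k with
  | zero =>
    have h1 : JF S m lam K 0 y = fun z => ip (ee K y []) z := by
      funext z
      rw [ip_apply]
      simp [JF]
    have h2 : fderiv ℝ (JF S m lam K 0 y) z = ip (ee K y []) := by
      rw [h1]
      exact (ip (ee K y [])).fderiv
    have h3 : MG S m lam K 0 y z = ee K y [] := by
      simp [MG, lev, Psi]
    rw [h2, h3, ip_apply]
    simp
  | succ k ih =>
    have ih' := ih (by omega)
    have hC := hc k (by omega)
    have hN0 : (0 : ℝ) < N := by exact_mod_cast hN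
    have hyV : y ∈ Vs N K := hy.1
    rw [JF_fderiv_succ S m lam K k y hC.pos, MG_succ S m lam hN (by omega) hy, dt_add_left, dt_smul_left]
    obtain ⟨E, hE⟩ : ∃ E : ℝ, E = ∑ v ∈ lev N k, ∑ a, ss m K y (a :: v) *
        ((lam (k + 1))⁻¹ * fderiv ℝ (Psi S m lam v) z u * S.p a (lam (k + 1) * dt (dir m (k + 1)) z)) :=
      ⟨_, rfl⟩
    have h1 : ∑ v ∈ lev N k, ∑ a, ss m K y (a :: v) * ((lam (k + 1))⁻¹ * fderiv ℝ (Psi S m lam v) z u *
          S.p a (lam (k + 1) * dt (dir m (k + 1)) z) +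
          Psi S m lam v z * (S.f a (lam (k + 1) * dt (dir m (k + 1)) z) - (N : ℝ)⁻¹) *
            dt (dir m (k + 1)) u) = E + (∑ v ∈ lev N k, ∑ a, ss m K y (a :: v) *
      (Psi S m lam v z * S.f a (lam (k + 1) * dt (dir m (k + 1)) z))) * dt (dir m (k + 1)) u := by
      rw [hE, Finset.sum_mul, ← Finset.sum_add_distrib]
      refine Finset.sum_congr rfl fun v hv => ?_
      have hv' : v.length = k := mem_lev.1 hv
      have h2 : ∑ a, ss m K y (a :: v) = 0 := ss_sum hN hyV (by omega)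
      have h3 : ∀ a : Fin N, ss m K y (a :: v) * ((lam (k + 1))⁻¹ * fderiv ℝ (Psi S m lam v) z u *
          S.p a (lam (k + 1) * dt (dir m (k + 1)) z) +
          Psi S m lam v z * (S.f a (lam (k + 1) * dt (dir m (k + 1)) z) - (N : ℝ)⁻¹) *
            dt (dir m (k + 1)) u) = (ss m K y (a :: v) *
        ((lam (k + 1))⁻¹ * fderiv ℝ (Psi S m lam v) z u * S.p a (lam (k + 1) * dt (dir m (k + 1)) z)) +
        ss m K y (a :: v) * (Psi S m lam v z * S.f a (lam (k + 1) * dt (dir m (k + 1)) z)) *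
          dt (dir m (k + 1)) u) -
        ss m K y (a :: v) * (Psi S m lam v z * (N : ℝ)⁻¹ * dt (dir m (k + 1)) u) := by
        intro a
        ring
      rw [Finset.sum_congr rfl fun a _ => h3 a, Finset.sum_sub_distrib, ← Finset.sum_mul, h2, zero_mul,
        sub_zero, Finset.sum_add_distrib, ← Finset.sum_mul]
    rw [h1]
    have h4 : |E| ≤ δ * c := by
      rw [hE]
      calc |∑ v ∈ lev N k, ∑ a, ss m K y (a :: v) *
            ((lam (k + 1))⁻¹ * fderiv ℝ (Psi S m lam v) z u * S.p a (lam (k + 1) * dt (dir m (k + 1)) z))|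
          ≤ ∑ v ∈ lev N k, ∑ a : Fin N, δ * c / (N : ℝ) ^ (k + 1) := by
            refine (Finset.abs_sum_le_sum_abs _ _).trans (Finset.sum_le_sum fun v hv => ?_)
            refine (Finset.abs_sum_le_sum_abs _ _).trans (Finset.sum_le_sum fun a _ => ?_)
            have hv' : v.length = k := mem_lev.1 hv
            have h5 := hC.c1 v hv z u hu
            have h6 : |ss m K y (a :: v)| ≤ 2 * c := abs_ss_le hN hyV hyc (by omega) a
            have h7 := abs_p_le S a (lam (k + 1) * dt (dir m (k + 1)) z)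
            have hl := hC.pos
            rw [abs_mul, abs_mul, abs_mul, abs_of_pos (inv_pos.2 hl), le_div_iff₀ (by positivity)]
            have h8 : (lam (k + 1))⁻¹ * |fderiv ℝ (Psi S m lam v) z u| *
                |S.p a (lam (k + 1) * dt (dir m (k + 1)) z)| ≤
                (lam (k + 1))⁻¹ * |fderiv ℝ (Psi S m lam v) z u| :=
              mul_le_of_le_one_right (mul_nonneg (inv_nonneg.2 hl.le) (abs_nonneg _)) h7
            have h9 : 0 ≤ (lam (k + 1))⁻¹ * |fderiv ℝ (Psi S m lam v) z u| *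
                |S.p a (lam (k + 1) * dt (dir m (k + 1)) z)| := by positivity
            calc |ss m K y (a :: v)| * ((lam (k + 1))⁻¹ * |fderiv ℝ (Psi S m lam v) z u| *
                |S.p a (lam (k + 1) * dt (dir m (k + 1)) z)|) * (N : ℝ) ^ (k + 1)
                ≤ (2 * c) * ((lam (k + 1))⁻¹ * |fderiv ℝ (Psi S m lam v) z u|) * (N : ℝ) ^ (k + 1) := by
                  refine mul_le_mul_of_nonneg_right ?_ (by positivity)
                  exact mul_le_mul h6 h8 h9 (by positivity)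
              _ = c * (lam (k + 1))⁻¹ * (2 * (N : ℝ) ^ (k + 1) * |fderiv ℝ (Psi S m lam v) z u|) := by ring
              _ ≤ c * (lam (k + 1))⁻¹ * (δ * lam (k + 1)) :=
                  mul_le_mul_of_nonneg_left h5 (mul_nonneg h0 (inv_nonneg.2 hl.le))
              _ = δ * c := by field_simp
        _ = δ * c := by
            rw [Finset.sum_const, Finset.sum_const, card_lev, Finset.card_univ, Fintype.card_fin,
              nsmul_eq_mul, nsmul_eq_mul]
            push_cast
            field_simp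
            ring
    have h5 : fderiv ℝ (JF S m lam K k y) z u + (E + (∑ v ∈ lev N k, ∑ a, ss m K y (a :: v) *
      (Psi S m lam v z * S.f a (lam (k + 1) * dt (dir m (k + 1)) z))) * dt (dir m (k + 1)) u) -
      (dt (MG S m lam K k y z) u + (∑ v ∈ lev N k, ∑ a, ss m K y (a :: v) *
      (Psi S m lam v z * S.f a (lam (k + 1) * dt (dir m (k + 1)) z))) * dt (dir m (k + 1)) u) =
      (fderiv ℝ (JF S m lam K k y) z u - dt (MG S m lam K k y z) u) + E := by ring
    rw [h5]
    refine (abs_add_le _ _).trans ?_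
    push_cast
    linarith

theorem JF_fderiv_le (hN : 1 ≤ N) {K : ℕ} {δ c : ℝ} (hc : ∀ i < K, Cond S m lam δ i) (hδ : K * δ ≤ 1) {y : Y N}
    (hy : y ∈ Xs N K m) (hyc : ∀ g ∈ lev N K, ‖y g‖ ≤ c) (h0 : 0 ≤ c) (z : ℂ) {u : ℂ} (hu : ‖u‖ ≤ 1) :
    |fderiv ℝ (JF S m lam K K y) z u| ≤ 2 * c := by
  have h1 := JF_fderiv_near S m lam hN le_rfl hc hy hyc h0 z hu
  have h2 : |dt (MG S m lam K K y z) u| ≤ c := by
    refine (abs_dt_le _ _).trans ?_
    calc ‖MG S m lam K K y z‖ * ‖u‖ ≤ c * 1 :=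
          mul_le_mul (norm_MG_le S m lam hyc z) hu (norm_nonneg _) h0
      _ = c := mul_one c
  have h3 : (K : ℝ) * (δ * c) ≤ c := by
    calc (K : ℝ) * (δ * c) = (K * δ) * c := by ring
      _ ≤ 1 * c := mul_le_mul_of_nonneg_right hδ h0
      _ = c := one_mul c
  have h4 : fderiv ℝ (JF S m lam K K y) z u =
      (fderiv ℝ (JF S m lam K K y) z u - dt (MG S m lam K K y z) u) + dt (MG S m lam K K y z) u := by ring
  rw [h4]
  refine (abs_add_le _ _).trans ?_
  linarith

end

end H63LE
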