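import Pool.Agent.H63.LE.Ex
import Pool.Agent.H63.LE.Jd

/-!
S05864 PART E [H63 LE APX]. `Av g (JF y)` is close to `y g` for a leaf `g`. Put `F = JF S m lam K K y`.
`JF_lp`: `F 0 = 0` (`dt _ 0 = 0`, `p a 0 = 0`), and `|F z - F w| ≤ 2c‖z - w‖` from `JF_fderiv_le` (for all `u`, by scaling: `‖fderiv ℝ F z‖ ≤ 2c`,
`ContinuousLinearMap.opNorm_le_of_unit_norm` or `opNorm_le_bound` after scaling, then `Convex.norm_image_sub_le_of_norm_fderiv_le`).
`Ar_near`: by `Ar_parts`: `Ar g u F = N^K ∫ fderiv F z u * gw g z`, and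
`fderiv F z u - dt (y g) u = (fderiv F z u - dt (MG z) u) + dt (MG z - y g) u`, so
`|Ar g u F - aw g * dt (y g) u| ≤ N^K ∫ (K δ c + 2 c (1 - Psi g z)) gw g z = K δ c aw g + 2 c (aw g - bw g)` (`JF_fderiv_near`, `MG_sub_leaf`),
and `|aw g - 1| |dt (y g) u| ≤ K δ c` (`aw_near`, `bw_lower`; `|g| = K`). With `K δ ≤ 1/1000`, `K η ≤ 1/1000` the total is
`≤ c (0.001 * 1.001 + 2 (0.001 + 0.003) + 0.001) ≤ c/16`.
`Av_near`: `‖z‖ ≤ |z.re| + |z.im|`; `dt (y g) 1 = (y g).re`, `dt (y g) I = (y g).im`.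
-/

set_option autoImplicit false

open MeasureTheory
open scoped ContDiff

namespace H63LE

open H50RC

section
variable {N : ℕ} {η : ℝ} (S : PS N η) (m : ℕ) (lam : ℕ → ℝ)

theorem JF_zero (K k : ℕ) (y : Y N) : JF S m lam K k y 0 = 0 := by
  unfold JF
  rw [dt_zero_right, zero_add]
  refine Finset.sum_eq_zero fun i _ => Finset.sum_eq_zero fun v _ => Finset.sum_eq_zero fun a _ => ?_
  rw [dt_zero_right, mul_zero]
  simp [PS.p]

theorem JF_lp (hN : 1 ≤ N) {K : ℕ} {δ c : ℝ} (hc : ∀ i < K, Cond S m lam δ i) (hδ : K * δ ≤ 1) {y : Y N}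
    (hy : y ∈ Xs N K m) (hyc : ∀ g ∈ lev N K, ‖y g‖ ≤ c) (h0 : 0 ≤ c) : Lp (2 * c) (JF S m lam K K y) := by
  refine ⟨by positivity, JF_zero S m lam K K y, fun z w => ?_⟩
  have hd : Differentiable ℝ (JF S m lam K K y) := (JF_smooth S m lam K K y).differentiable (by simp)
  have hb : ∀ x ∈ (Set.univ : Set ℂ), ‖fderiv ℝ (JF S m lam K K y) x‖ ≤ 2 * c := by
    intro x _
    refine ContinuousLinearMap.opNorm_le_bound _ (by positivity) fun v => ?_
    rcases eq_or_ne v 0 with rfl | hv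
    · simp
    have hv0 : 0 < ‖v‖ := norm_pos_iff.2 hv
    have h1 := JF_fderiv_le S m lam hN hc hδ hy hyc h0 x (u := ‖v‖⁻¹ • v) (by
      rw [norm_smul, norm_inv, norm_norm, inv_mul_cancel₀ hv0.ne'])
    rw [map_smul, smul_eq_mul, abs_mul, abs_of_pos (inv_pos.2 hv0), inv_mul_le_iff₀ hv0] at h1
    rw [Real.norm_eq_abs]
    linarith
  have := Convex.norm_image_sub_le_of_norm_fderiv_le (𝕜 := ℝ) (fun x _ => hd x) hb convex_univ
    (Set.mem_univ w) (Set.mem_univ z)
  rwa [Real.norm_eq_abs] at this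

theorem Ar_near (hN : 1 ≤ N) {K : ℕ} {δ c : ℝ} (hc : ∀ i < K, Cond S m lam δ i) (hδ0 : 0 ≤ δ) (hη0 : 0 ≤ η)
    (hδ : K * δ ≤ 1 / 1000) (hη : K * η ≤ 1 / 1000) {y : Y N}
    (hy : y ∈ Xs N K m) (hyc : ∀ g ∈ lev N K, ‖y g‖ ≤ c) (h0 : 0 ≤ c) {g : Nd N} (hg : g ∈ lev N K) {u : ℂ} (hu : ‖u‖ = 1) :
    |Ar S m lam g u (JF S m lam K K y) - dt (y g) u| ≤ c / 16 := by
  have hδ1 : (K : ℝ) * δ ≤ 1 := hδ.trans (by norm_num)
  have hlp := JF_lp S m lam hN hc hδ1 hy hyc h0
  have hsm := JF_smooth S m lam K K y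
  have hd : Differentiable ℝ (JF S m lam K K y) := hsm.differentiable (by simp)
  have hlen : g.length = K := mem_lev.1 hg
  have h1 := Ar_parts S m lam g u hlp hd
  rw [h1]
  have haw : aw S m lam g = (N : ℝ) ^ g.length * ∫ z, gw S m lam g z := rfl
  -- integrability
  have hgi := integrable_gw S m lam g
  have hgc : Continuous (gw S m lam g) := (gw_smooth S m lam g).continuous
  have hFi : Integrable (fun z => fderiv ℝ (JF S m lam K K y) z u * gw S m lam g z) := by
    have hc1 : Continuous (fun z => fderiv ℝ (JF S m lam K K y) z u) :=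
      (hsm.continuous_fderiv (by simp)).clm_apply continuous_const
    exact (hc1.mul hgc).integrable_of_hasCompactSupport (gw_supp S m lam g).mul_left
  have hsq := integrable_sq S m lam g
  -- the difference
  have h2 : (N : ℝ) ^ g.length * (∫ z, fderiv ℝ (JF S m lam K K y) z u * gw S m lam g z) -
      aw S m lam g * dt (y g) u = (N : ℝ) ^ g.length *
      ∫ z, (fderiv ℝ (JF S m lam K K y) z u - dt (y g) u) * gw S m lam g z := by
    have h3 : (fun z => (fderiv ℝ (JF S m lam K K y) z u - dt (y g) u) * gw S m lam g z) =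
        fun z => fderiv ℝ (JF S m lam K K y) z u * gw S m lam g z - dt (y g) u * gw S m lam g z := by
      funext z
      ring
    rw [h3, integral_sub hFi (hgi.const_mul _), integral_const_mul, haw]
    ring
  have hN0 : (0 : ℝ) ≤ (N : ℝ) ^ g.length := by positivity
  have h4 : |∫ z, (fderiv ℝ (JF S m lam K K y) z u - dt (y g) u) * gw S m lam g z| ≤
      ∫ z, ((K * (δ * c) + 2 * c) * gw S m lam g z - 2 * c * (bt z * Psi S m lam g z ^ 2)) := by
    refine (abs_integral_le_integral_abs).trans ?_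
    refine integral_mono_of_nonneg (Filter.Eventually.of_forall fun z => abs_nonneg _)
      ((hgi.const_mul _).sub (hsq.const_mul _)) (Filter.Eventually.of_forall fun z => ?_)
    show |(fderiv ℝ (JF S m lam K K y) z u - dt (y g) u) * gw S m lam g z| ≤
      (K * (δ * c) + 2 * c) * gw S m lam g z - 2 * c * (bt z * Psi S m lam g z ^ 2)
    have hg0 := gw_nonneg S m lam g z
    rw [abs_mul, abs_of_nonneg hg0]
    have h5 := JF_fderiv_near S m lam hN le_rfl hc hy hyc h0 z hu.le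
    have h6 := MG_sub_leaf S m lam hyc hg z
    have h7 : |dt (MG S m lam K K y z) u - dt (y g) u| ≤ 2 * c * (1 - Psi S m lam g z) := by
      have h8 : dt (MG S m lam K K y z) u - dt (y g) u = dt (MG S m lam K K y z - y g) u := by
        rw [dt_comm, dt_comm (y g), ← dt_sub_right, dt_comm]
      rw [h8]
      have h9 := abs_dt_le (MG S m lam K K y z - y g) u
      rw [hu, mul_one] at h9
      exact h9.trans h6
    have h8 : |fderiv ℝ (JF S m lam K K y) z u - dt (y g) u| ≤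
        K * (δ * c) + 2 * c * (1 - Psi S m lam g z) := by
      have e : fderiv ℝ (JF S m lam K K y) z u - dt (y g) u =
          (fderiv ℝ (JF S m lam K K y) z u - dt (MG S m lam K K y z) u) +
          (dt (MG S m lam K K y z) u - dt (y g) u) := by ring
      rw [e]
      exact (abs_add_le _ _).trans (add_le_add h5 h7)
    refine (mul_le_mul_of_nonneg_right h8 hg0).trans (le_of_eq ?_)
    unfold gw
    ring
  rw [integral_sub (hgi.const_mul _) (hsq.const_mul _), integral_const_mul, integral_const_mul] at h4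
  have h5 : |(N : ℝ) ^ g.length * (∫ z, fderiv ℝ (JF S m lam K K y) z u * gw S m lam g z) -
      aw S m lam g * dt (y g) u| ≤ (K * (δ * c) + 2 * c) * aw S m lam g - 2 * c * bw S m lam g := by
    rw [h2, abs_mul, abs_of_nonneg hN0]
    refine (mul_le_mul_of_nonneg_left h4 hN0).trans (le_of_eq ?_)
    rw [haw]
    unfold bw
    ring
  have ha := aw_near hc (w := g) hlen.le
  have hb := bw_lower hδ0 hη0 hδ1 hc (w := g) hlen.le
  rw [hlen] at ha hb
  have hyd : |dt (y g) u| ≤ c := by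
    have h9 := abs_dt_le (y g) u
    rw [hu, mul_one] at h9
    exact h9.trans (hyc g hg)
  have h6 : |aw S m lam g * dt (y g) u - dt (y g) u| ≤ (K * δ) * c := by
    have e : aw S m lam g * dt (y g) u - dt (y g) u = (aw S m lam g - 1) * dt (y g) u := by ring
    rw [e, abs_mul]
    exact mul_le_mul ha hyd (abs_nonneg _) ((abs_nonneg _).trans ha)
  have h7 : |(N : ℝ) ^ g.length * (∫ z, fderiv ℝ (JF S m lam K K y) z u * gw S m lam g z) -
      dt (y g) u| ≤ ((K * (δ * c) + 2 * c) * aw S m lam g - 2 * c * bw S m lam g) + (K * δ) * c := by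
    have e : (N : ℝ) ^ g.length * (∫ z, fderiv ℝ (JF S m lam K K y) z u * gw S m lam g z) -
      dt (y g) u = ((N : ℝ) ^ g.length * (∫ z, fderiv ℝ (JF S m lam K K y) z u * gw S m lam g z) -
      aw S m lam g * dt (y g) u) + (aw S m lam g * dt (y g) u - dt (y g) u) := by ring
    rw [e]
    exact (abs_add_le _ _).trans (add_le_add h5 h6)
  refine h7.trans ?_
  have hK : 0 ≤ (K : ℝ) * δ := mul_nonneg (Nat.cast_nonneg K) hδ0
  have ha2 := (abs_le.1 ha).2
  have ha3 : aw S m lam g ≤ 1 + 1 / 1000 := by linarith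
  have ha4 : 0 ≤ aw S m lam g := by
    have := (abs_le.1 ha).1
    linarith
  have hb2 : 1 - 3 / 1000 ≤ bw S m lam g := by
    have e : (K : ℝ) * (2 * η + δ) = 2 * (K * η) + K * δ := by ring
    rw [e] at hb
    linarith
  have e1 : (K * (δ * c) + 2 * c) * aw S m lam g - 2 * c * bw S m lam g + (K * δ) * c =
      c * ((K * δ) * aw S m lam g + 2 * (aw S m lam g - bw S m lam g) + K * δ) := by ring
  rw [e1, div_eq_mul_inv]
  refine mul_le_mul_of_nonneg_left ?_ h0
  have e2 : (K : ℝ) * δ * aw S m lam g ≤ 1 / 1000 * (1 + 1 / 1000) :=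
    mul_le_mul hδ ha3 ha4 (by norm_num)
  norm_num at e2 ha3 hb2 hδ ⊢
  linarith

theorem Av_near (hN : 1 ≤ N) {K : ℕ} {δ c : ℝ} (hc : ∀ i < K, Cond S m lam δ i) (hδ0 : 0 ≤ δ) (hη0 : 0 ≤ η)
    (hδ : K * δ ≤ 1 / 1000) (hη : K * η ≤ 1 / 1000) {y : Y N}
    (hy : y ∈ Xs N K m) (hyc : ∀ g ∈ lev N K, ‖y g‖ ≤ c) (h0 : 0 ≤ c) {g : Nd N} (hg : g ∈ lev N K) :
    ‖Av S m lam g (JF S m lam K K y) - y g‖ ≤ c / 8 := by
  have h1 := Ar_near S m lam hN hc hδ0 hη0 hδ hη hy hyc h0 hg (u := 1) norm_one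
  have h2 := Ar_near S m lam hN hc hδ0 hη0 hδ hη hy hyc h0 hg (u := Complex.I) Complex.norm_I
  have e1 : dt (y g) 1 = (y g).re := by simp [dt]
  have e2 : dt (y g) Complex.I = (y g).im := by simp [dt]
  rw [e1] at h1
  rw [e2] at h2
  refine (Complex.norm_le_abs_re_add_abs_im _).trans ?_
  rw [Complex.sub_re, Complex.sub_im]
  have e3 : (Av S m lam g (JF S m lam K K y)).re = Ar S m lam g 1 (JF S m lam K K y) := rfl
  have e4 : (Av S m lam g (JF S m lam K K y)).im = Ar S m lam g Complex.I (JF S m lam K K y) := rfl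
  rw [e3, e4]
  linarith

end

end H63LE
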