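import Pool.Agent.H63.LE.Psi1

/-!
S05864 PART E [H63 LE PSI2]. Properties of `gw`, `aw`, `bw`.
`fderiv_gw_perp`: `gw (a::w) z = gw w z * f a (λ dt n z)` and the second factor has derivative zero in the direction `I n` (`dt n (I n) = 0`, `dt_rot_self`, `dt_comm`);
product rule `fderiv_fun_mul` and the chain rule (the map `z ↦ λ * dt n z` is `λ • ip n`, `ip_apply`).
Integrability: continuous with compact support (`Continuous.integrable_of_hasCompactSupport`, `HasCompactSupport.mul_right`). `bw_le_aw`: `Psi² ≤ Psi`.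
-/

set_option autoImplicit false

open MeasureTheory
open scoped ContDiff

namespace H63LE

open H50RC

section
variable {N : ℕ} {η : ℝ} (S : PS N η) (m : ℕ) (lam : ℕ → ℝ)

theorem gw_smooth (w : Nd N) : ContDiff ℝ ∞ (gw S m lam w) := bt_smooth.mul (Psi_smooth S m lam w)

theorem gw_supp (w : Nd N) : HasCompactSupport (gw S m lam w) := bt_supp.mul_right

theorem gw_nonneg (w : Nd N) (z : ℂ) : 0 ≤ gw S m lam w z := mul_nonneg (bt_nonneg z) (Psi_nonneg S m lam w z)

theorem gw_cons (a : Fin N) (w : Nd N) (z : ℂ) :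
    gw S m lam (a :: w) z = gw S m lam w z * S.f a (lam (w.length + 1) * dt (dir m (w.length + 1)) z) := by
  show bt z * (Psi S m lam w z * _) = bt z * Psi S m lam w z * _
  rw [mul_assoc]

theorem gw_children (w : Nd N) (z : ℂ) : ∑ a, gw S m lam (a :: w) z = gw S m lam w z := by
  simp only [gw]
  rw [← Finset.mul_sum, Psi_children]

theorem fderiv_gw_perp (a : Fin N) (w : Nd N) (z : ℂ) :
    fderiv ℝ (gw S m lam (a :: w)) z (Complex.I * dir m (w.length + 1)) =
      fderiv ℝ (gw S m lam w) z (Complex.I * dir m (w.length + 1)) *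
        S.f a (lam (w.length + 1) * dt (dir m (w.length + 1)) z) := by
  have h1 : HasFDerivAt (gw S m lam w) (fderiv ℝ (gw S m lam w) z) z :=
    ((gw_smooth S m lam w).differentiable (by simp) z).hasFDerivAt
  have h2 : HasDerivAt (S.f a) (deriv (S.f a) (lam (w.length + 1) * dt (dir m (w.length + 1)) z))
      (lam (w.length + 1) * dt (dir m (w.length + 1)) z) :=
    ((S.smooth a).differentiable (by simp) _).hasDerivAt
  have h3 := h2.comp_hasFDerivAt z (phase_hasFDerivAt (lam (w.length + 1)) (dir m (w.length + 1)) z)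
  have h4 := (h1.mul h3).fderiv
  have h5 : gw S m lam (a :: w) = gw S m lam w *
      (S.f a ∘ fun z => lam (w.length + 1) * dt (dir m (w.length + 1)) z) := by
    funext z
    rw [gw_cons]
    rfl
  have h6 : dt (dir m (w.length + 1)) (Complex.I * dir m (w.length + 1)) = 0 := by
    rw [dt_comm, dt_rot_self]
  rw [h5, h4]
  simp only [add_apply, smul_apply, smul_eq_mul, ip_apply, Function.comp_apply, h6]
  ring

theorem integrable_gw (w : Nd N) : Integrable (gw S m lam w) :=
  (gw_smooth S m lam w).continuous.integrable_of_hasCompactSupport (gw_supp S m lam w)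

theorem sq_smooth (w : Nd N) : ContDiff ℝ ∞ (fun z => bt z * Psi S m lam w z ^ 2) :=
  bt_smooth.mul ((Psi_smooth S m lam w).pow 2)

theorem sq_supp (w : Nd N) : HasCompactSupport (fun z => bt z * Psi S m lam w z ^ 2) := bt_supp.mul_right

theorem integrable_sq (w : Nd N) : Integrable fun z => bt z * Psi S m lam w z ^ 2 :=
  (sq_smooth S m lam w).continuous.integrable_of_hasCompactSupport (sq_supp S m lam w)

theorem aw_nil : aw S m lam [] = 1 := by
  simp [aw, Psi, bt_int]

theorem bw_nil : bw S m lam [] = 1 := by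
  simp [bw, Psi, bt_int]

theorem bw_nonneg (w : Nd N) : 0 ≤ bw S m lam w :=
  mul_nonneg (by positivity) (integral_nonneg fun z => mul_nonneg (bt_nonneg z) (sq_nonneg _))

theorem bw_le_aw (w : Nd N) : bw S m lam w ≤ aw S m lam w := by
  refine mul_le_mul_of_nonneg_left (integral_mono (integrable_sq S m lam w) (integrable_gw S m lam w) fun z => ?_)
    (by positivity)
  show bt z * Psi S m lam w z ^ 2 ≤ bt z * Psi S m lam w z
  refine mul_le_mul_of_nonneg_left ?_ (bt_nonneg z)
  have h0 := Psi_nonneg S m lam w z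
  have h1 := Psi_le_one S m lam w z
  nlinarith

end

end H63LE
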