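import Pool.Agent.H63.LE.An1
import Pool.Agent.H63.LE.PsiB

/-!
S05864 PART E [H63 LE AV]. The averaged gradients. `f` is continuous wherever linearity is used: `fderiv (gw w) z u * f z` is continuous with
compact support, hence integrable. `dt_Ar`: `fderiv g z u = u.re * fderiv g z 1 + u.im * fderiv g z I` (linear, `u = u.re • 1 + u.im • I`).
`Av_children`: `∑_a gw (a::w) = gw w` (`gw_children`), so `∑_a fderiv (gw (a::w)) z u = fderiv (gw w) z u` (`fderiv_fun_sum`), `|a::w| = |w| + 1`.
`Ar_le`: `bi` for `g = gw w ≥ 0`, `N^|w| ∫ gw w = aw w`. `norm_Av_le`: `‖z‖ ≤ |z.re| + |z.im|` (`Complex.norm_le_abs_re_add_abs_im`).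
`Ar_parts`: `parts`.
-/

set_option autoImplicit false

open MeasureTheory
open scoped ContDiff

namespace H63LE

open H50RC

section
variable {N : ℕ} {η : ℝ} (S : PS N η) (m : ℕ) (lam : ℕ → ℝ)

theorem integrable_Ar (w : Nd N) (u : ℂ) {f : ℂ → ℝ} (hf : Continuous f) :
    Integrable fun z => fderiv ℝ (gw S m lam w) z u * f z := by
  have h1 : Continuous fun z => fderiv ℝ (gw S m lam w) z u :=
    ((gw_smooth S m lam w).continuous_fderiv (by simp)).clm_apply continuous_const
  have h2 : HasCompactSupport fun z => fderiv ℝ (gw S m lam w) z u := (gw_supp S m lam w).fderiv_apply ℝ u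
  exact (h1.mul hf).integrable_of_hasCompactSupport h2.mul_right

theorem Lp.cont {f : ℂ → ℝ} {c : ℝ} (hf : Lp c f) : Continuous f := by
  have h : LipschitzWith ⟨c, hf.1⟩ f := LipschitzWith.of_dist_le_mul fun z w => by
    rw [Real.dist_eq, dist_eq_norm]
    exact hf.2.2 z w
  exact h.continuous

theorem dt_Av (w : Nd N) (u : ℂ) {f : ℂ → ℝ} (hf : Continuous f) :
    dt u (Av S m lam w f) = Ar S m lam w u f := by
  have h1 : ∀ z, fderiv ℝ (gw S m lam w) z u * f z =
      u.re * (fderiv ℝ (gw S m lam w) z 1 * f z) + u.im * (fderiv ℝ (gw S m lam w) z Complex.I * f z) := by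
    intro z
    have h2 : u = u.re • (1 : ℂ) + u.im • Complex.I := by
      apply Complex.ext <;> simp
    conv_lhs => rw [h2]
    rw [map_add, map_smul, map_smul, smul_eq_mul, smul_eq_mul]
    ring
  show u.re * Ar S m lam w 1 f + u.im * Ar S m lam w Complex.I f = _
  unfold Ar
  simp only [h1]
  rw [integral_add ((integrable_Ar S m lam w 1 hf).const_mul _) ((integrable_Ar S m lam w Complex.I hf).const_mul _),
    integral_const_mul, integral_const_mul]
  ring

theorem Ar_children (w : Nd N) (u : ℂ) {f : ℂ → ℝ} (hf : Continuous f) :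
    ∑ a, Ar S m lam (a :: w) u f = (N : ℝ) * Ar S m lam w u f := by
  have h1 : ∀ z, ∑ a, fderiv ℝ (gw S m lam (a :: w)) z u = fderiv ℝ (gw S m lam w) z u := by
    intro z
    have h2 : gw S m lam w = fun z => ∑ a, gw S m lam (a :: w) z := by
      funext z
      exact (gw_children S m lam w z).symm
    rw [h2, fderiv_fun_sum fun a _ => (gw_smooth S m lam (a :: w)).differentiable (by simp) z]
    simp
  unfold Ar
  rw [Finset.sum_neg_distrib, mul_neg, neg_inj]
  simp only [List.length_cons]
  rw [← Finset.mul_sum, ← integral_finsetSum _ fun a _ => integrable_Ar S m lam (a :: w) u hf]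
  have h3 : ∀ z, ∑ a, fderiv ℝ (gw S m lam (a :: w)) z u * f z = fderiv ℝ (gw S m lam w) z u * f z := by
    intro z
    rw [← Finset.sum_mul, h1]
  simp only [h3]
  rw [pow_succ]
  ring

theorem Av_children (w : Nd N) {f : ℂ → ℝ} (hf : Continuous f) :
    ∑ a, Av S m lam (a :: w) f = (N : ℝ) • Av S m lam w f := by
  have h1 := Ar_children S m lam w 1 hf
  have h2 := Ar_children S m lam w Complex.I hf
  apply Complex.ext
  · rw [Complex.re_sum, Complex.smul_re]
    exact h1
  · rw [Complex.im_sum, Complex.smul_im]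
    exact h2

theorem Av_add (w : Nd N) {f g : ℂ → ℝ} (hf : Continuous f) (hg : Continuous g) :
    Av S m lam w (fun z => f z + g z) = Av S m lam w f + Av S m lam w g := by
  have h : ∀ u, Ar S m lam w u (fun z => f z + g z) = Ar S m lam w u f + Ar S m lam w u g := by
    intro u
    unfold Ar
    simp only [mul_add]
    rw [integral_add (integrable_Ar S m lam w u hf) (integrable_Ar S m lam w u hg)]
    ring
  apply Complex.ext
  · exact h 1
  · exact h Complex.I

theorem Av_smul (w : Nd N) (c : ℝ) (f : ℂ → ℝ) :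
    Av S m lam w (fun z => c * f z) = c • Av S m lam w f := by
  have h : ∀ u, Ar S m lam w u (fun z => c * f z) = c * Ar S m lam w u f := by
    intro u
    unfold Ar
    have h1 : ∀ z, fderiv ℝ (gw S m lam w) z u * (c * f z) = c * (fderiv ℝ (gw S m lam w) z u * f z) := by
      intro z
      ring
    simp only [h1]
    rw [integral_const_mul]
    ring
  apply Complex.ext
  · rw [Complex.smul_re]
    exact h 1
  · rw [Complex.smul_im]
    exact h Complex.I

theorem Ar_le (w : Nd N) (u : ℂ) {f : ℂ → ℝ} {c : ℝ} (hf : Lp c f) :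
    |Ar S m lam w u f| ≤ c * ‖u‖ * aw S m lam w := by
  have h1 := bi hf.1 hf.2.2 (gw_smooth S m lam w) (gw_supp S m lam w) u
  have h2 : ∫ z, |gw S m lam w z| = ∫ z, gw S m lam w z := by
    congr 1
    funext z
    exact abs_of_nonneg (gw_nonneg S m lam w z)
  rw [h2] at h1
  unfold Ar
  rw [abs_neg, abs_mul, abs_of_nonneg (by positivity : (0 : ℝ) ≤ (N : ℝ) ^ w.length)]
  calc (N : ℝ) ^ w.length * |∫ z, fderiv ℝ (gw S m lam w) z u * f z|
      ≤ (N : ℝ) ^ w.length * (c * ‖u‖ * ∫ z, gw S m lam w z) := mul_le_mul_of_nonneg_left h1 (by positivity)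
    _ = c * ‖u‖ * ((N : ℝ) ^ w.length * ∫ z, gw S m lam w z) := by ring
    _ = c * ‖u‖ * aw S m lam w := rfl

theorem norm_Av_le (w : Nd N) {f : ℂ → ℝ} {c : ℝ} (hf : Lp c f) :
    ‖Av S m lam w f‖ ≤ 2 * c * aw S m lam w := by
  have h1 := Ar_le S m lam w 1 hf
  have h2 := Ar_le S m lam w Complex.I hf
  rw [norm_one, mul_one] at h1
  rw [Complex.norm_I, mul_one] at h2
  have h3 := Complex.norm_le_abs_re_add_abs_im (Av S m lam w f)
  have h4 : |(Av S m lam w f).re| = |Ar S m lam w 1 f| := rfl
  have h5 : |(Av S m lam w f).im| = |Ar S m lam w Complex.I f| := rfl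
  rw [h4, h5] at h3
  linarith

theorem Ar_parts (w : Nd N) (u : ℂ) {f : ℂ → ℝ} {c : ℝ} (hf : Lp c f) (hs : Differentiable ℝ f) :
    Ar S m lam w u f = (N : ℝ) ^ w.length * ∫ z, fderiv ℝ f z u * gw S m lam w z := by
  unfold Ar
  rw [parts hf.1 hf.2.2 hs (gw_smooth S m lam w) (gw_supp S m lam w) u]
  ring

end

end H63LE
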