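import Pool.Agent.H50.RC.EF
import Pool.Agent.H50.RC.Bas
import Pool.Agent.H50.RC.Dt

/-!
S05864 (MP_b365ef_an), PART E (embedding): definitions. Paper proof: proofs 322, in the following simplified form.

`PS N η`: smooth 1-periodic `ψ_a : ℝ → [0,1]`, `a < N`, with `∑ ψ_a = 1` EVERYWHERE, mean `1/N`, `∫_0^1 ψ_a² ≥ (1-η)/N`.
`Psi w (z) = ∏_(i ≤ |w|) ψ_(w_i)(λ_i n_i . z)` for a node `w`; so `∑_a Psi (a::w) = Psi w`. `bt` = fixed bump with integral one.
`gw w = bt Psi w`, `Ar w u f = - N^|w| ∫ (∂_u gw w) f` (average of `∂_u f` over the set of `w`), `Av w f` the vector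
with the components `Ar w 1 f`, `Ar w I f`. `ee y w` = average of `y` over the leaves below `w`, `ss y w = n_w . (ee y w - ee y w^-)`,
`JF y z = ee y [] . z + ∑_(k<K) ∑_(|v|=k) ∑_a ss y (a::v) λ_(k+1)^(-1) Psi v z p_a(λ_(k+1) n_(k+1) . z)`.
-/

set_option autoImplicit false

open MeasureTheory
open scoped ContDiff

namespace H63LE

open H50RC

/-- smooth periodic partition of unity of the circle -/
structure PS (N : ℕ) (η : ℝ) where
  f : Fin N → ℝ → ℝ
  smooth : ∀ a, ContDiff ℝ ∞ (f a)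
  nonneg : ∀ a t, 0 ≤ f a t
  sum_one : ∀ t, ∑ a, f a t = 1
  per : ∀ a t, f a (t + 1) = f a t
  mean : ∀ a, ∫ t in (0 : ℝ)..1, f a t = (N : ℝ)⁻¹
  sq : ∀ a, (1 - η) * (N : ℝ)⁻¹ ≤ ∫ t in (0 : ℝ)..1, f a t ^ 2

/-- the primitive of `ψ_a - 1/N` -/
noncomputable def PS.p {N : ℕ} {η : ℝ} (S : PS N η) (a : Fin N) (t : ℝ) : ℝ :=
  ∫ s in (0 : ℝ)..t, (S.f a s - (N : ℝ)⁻¹)

/-- the linear functional `z ↦ u . z` -/
noncomputable def ip (u : ℂ) : ℂ →L[ℝ] ℝ := u.re • Complex.reCLM + u.im • Complex.imCLM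

theorem ip_apply (u z : ℂ) : ip u z = dt u z := by
  simp [ip, dt]

/-- a bump with integral one -/
noncomputable def bt : ℂ → ℝ := (⟨1, 2, one_pos, one_lt_two⟩ : ContDiffBump (0 : ℂ)).normed volume

theorem bt_smooth : ContDiff ℝ ∞ bt := ContDiffBump.contDiff_normed _

theorem bt_supp : HasCompactSupport bt := ContDiffBump.hasCompactSupport_normed _

theorem bt_nonneg (z : ℂ) : 0 ≤ bt z := ContDiffBump.nonneg_normed _ _

theorem bt_int : ∫ z, bt z = 1 := ContDiffBump.integral_normed _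

section
variable {N : ℕ} {η : ℝ} (S : PS N η) (m : ℕ) (lam : ℕ → ℝ)

/-- the product function of a node -/
noncomputable def Psi : Nd N → ℂ → ℝ
  | [], _ => 1
  | a :: w, z => Psi w z * S.f a (lam (w.length + 1) * dt (dir m (w.length + 1)) z)

/-- the localised product function -/
noncomputable def gw (w : Nd N) (z : ℂ) : ℝ := bt z * Psi S m lam w z

/-- the weak directional derivative of `f`, averaged over the set of `w` -/
noncomputable def Ar (w : Nd N) (u : ℂ) (f : ℂ → ℝ) : ℝ :=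
  -((N : ℝ) ^ w.length * ∫ z, fderiv ℝ (gw S m lam w) z u * f z)

/-- the gradient, averaged over the set of `w` -/
noncomputable def Av (w : Nd N) (f : ℂ → ℝ) : ℂ := ⟨Ar S m lam w 1 f, Ar S m lam w Complex.I f⟩

/-- the normalised mass -/
noncomputable def aw (w : Nd N) : ℝ := (N : ℝ) ^ w.length * ∫ z, bt z * Psi S m lam w z

/-- the normalised square mass -/
noncomputable def bw (w : Nd N) : ℝ := (N : ℝ) ^ w.length * ∫ z, bt z * Psi S m lam w z ^ 2

/-- `f` is `c`-Lipschitz and vanishes at zero -/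
def Lp (c : ℝ) (f : ℂ → ℝ) : Prop := 0 ≤ c ∧ f 0 = 0 ∧ ∀ z w, |f z - f w| ≤ c * ‖z - w‖

/-- the conditions on `λ_(k+1)` -/
structure Cond (δ : ℝ) (k : ℕ) : Prop where
  pos : 0 < lam (k + 1)
  c1 : ∀ v ∈ lev N k, ∀ z u, ‖u‖ ≤ 1 →
    2 * (N : ℝ) ^ (k + 1) * |fderiv ℝ (Psi S m lam v) z u| ≤ δ * lam (k + 1)
  c2 : ∀ v ∈ lev N k, ∀ a, |aw S m lam (a :: v) - aw S m lam v| ≤ δ
  c3 : ∀ v ∈ lev N k, ∀ a, ∀ (f : ℂ → ℝ) (c : ℝ), Lp c f →
    |dt (Complex.I * dir m (k + 1)) (Av S m lam (a :: v) f - Av S m lam v f)| ≤ δ * c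
  c4 : ∀ v ∈ lev N k, ∀ a, (1 - η) * bw S m lam v - δ ≤ bw S m lam (a :: v)

/-- average over the leaves below `w` -/
noncomputable def ee (K : ℕ) (y : Y N) (w : Nd N) : ℂ := ((N : ℝ) ^ (K - w.length))⁻¹ • y w

/-- the coefficient of `n_w` -/
noncomputable def ss (m K : ℕ) (y : Y N) (w : Nd N) : ℝ := dt (dir m w.length) (ee K y w - ee K y w.tail)

/-- the embedded function, levels below `k` -/
noncomputable def JF (K k : ℕ) (y : Y N) (z : ℂ) : ℝ :=
  dt (ee K y []) z + ∑ i ∈ Finset.range k, ∑ v ∈ lev N i, ∑ a,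
    ss m K y (a :: v) * (lam (i + 1))⁻¹ * (Psi S m lam v z * S.p a (lam (i + 1) * dt (dir m (i + 1)) z))

end

end H63LE
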