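import Pool.Agent.H63.LE.AvB
import Pool.Agent.H63.LE.An2

/-!
S05864 PART E: `Psi_update`.
-/

set_option autoImplicit false

open MeasureTheory Filter
open scoped ContDiff

namespace H63LE

open H50RC

section
variable {N : ℕ} {η : ℝ} (S : PS N η) (m : ℕ) (lam : ℕ → ℝ)

theorem Psi_update {k : ℕ} {v : Nd N} (hv : v ∈ lev N k) (x : ℝ) :
    Psi S m (Function.update lam (k + 1) x) v = Psi S m lam v := by
  refine Psi_congr S m fun i hi => ?_
  rw [mem_lev] at hv
  exact Function.update_of_ne (by omega) _ _

end

end H63LE
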