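import Pool.Agent.H63.LE.Ev0

/-!
S05864 PART E [H63 LE EV1]. The conditions hold for large `λ_(k+1) = x`. Here `lam` is fixed and `lam' = Function.update lam (k+1) x`.
For `v ∈ lev N k` (`|v| = k`, `mem_lev`): `Psi lam' v = Psi lam v` (`Psi_update`), hence the same for `gw`, `aw`, `bw`, `Av`, `Ar` (unfold), and `lam' (k+1) = x`
(`Function.update_self`). For finitely many `v`, `a`: `Filter.eventually_all_finset`, `Filter.eventually_all`.
`ev1`: `Psi_bdd`: `2 N^(k+1) B ≤ δ x` for large `x`.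
`ev2`: `aw (a::v) - aw v = N^(k+1) ∫ gw v (f a (x n.z) - 1/N)` (`gw_cons`, integrability), `osc_one` with `H = S.p a`, `h = f a - 1/N`, `B = 1`:
`≤ x⁻¹ N^(k+1) ∫ |fderiv (gw v) z n|`.
-/

set_option autoImplicit false

open MeasureTheory Filter
open scoped ContDiff

namespace H63LE

open H50RC

private theorem ev1_small (C : ℝ) {δ : ℝ} (hδ : 0 < δ) :
    ∀ᶠ x : ℝ in atTop, 0 < x ∧ x⁻¹ * C ≤ δ := by
  have h1 : Tendsto (fun x : ℝ => x⁻¹ * C) atTop (nhds (0 * C)) :=
    tendsto_inv_atTop_zero.mul_const C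
  rw [zero_mul] at h1
  exact (eventually_gt_atTop 0).and (h1.eventually_le_const hδ)

section
variable {N : ℕ} {η : ℝ} (S : PS N η) (m : ℕ) (lam : ℕ → ℝ)

theorem ev1 (k : ℕ) {δ : ℝ} (hδ : 0 < δ) : ∀ᶠ x in atTop, ∀ v ∈ lev N k, ∀ z u, ‖u‖ ≤ 1 →
    2 * (N : ℝ) ^ (k + 1) * |fderiv ℝ (Psi S m (Function.update lam (k + 1) x) v) z u| ≤
      δ * Function.update lam (k + 1) x (k + 1) := by
  rw [eventually_all_finset]
  intro v hv
  obtain ⟨B, hB, hb⟩ := Psi_bdd S m lam v
  filter_upwards [ev1_small (2 * (N : ℝ) ^ (k + 1) * B) hδ] with x hx z u hu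
  rw [Psi_update S m lam hv x, Function.update_self]
  have h1 := hb z u hu
  have h2 : 2 * (N : ℝ) ^ (k + 1) * B ≤ δ * x := by
    have h3 := mul_le_mul_of_nonneg_left hx.2 hx.1.le
    rw [← mul_assoc, mul_inv_cancel₀ hx.1.ne', one_mul] at h3
    linarith
  exact (mul_le_mul_of_nonneg_left h1 (by positivity)).trans h2

theorem ev2 (k : ℕ) {δ : ℝ} (hδ : 0 < δ) : ∀ᶠ x in atTop, ∀ v ∈ lev N k, ∀ a,
    |aw S m (Function.update lam (k + 1) x) (a :: v) - aw S m (Function.update lam (k + 1) x) v| ≤ δ := by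
  rw [eventually_all_finset]
  intro v hv
  rw [eventually_all]
  intro a
  have hk : v.length = k := mem_lev.1 hv
  have hN : (0 : ℝ) < N := by
    have : 0 < N := Fin.pos a
    exact_mod_cast this
  filter_upwards [ev1_small ((N : ℝ) ^ (k + 1) *
    (1 * ∫ z, |fderiv ℝ (gw S m lam v) z (dir m (k + 1))|)) hδ] with x hx
  have hgw : gw S m (Function.update lam (k + 1) x) v = gw S m lam v := by
    funext z
    unfold gw
    rw [Psi_update S m lam hv x]
  have e1 : aw S m (Function.update lam (k + 1) x) (a :: v) =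
      (N : ℝ) ^ (k + 1) * ∫ z, gw S m lam v z * S.f a (x * dt (dir m (k + 1)) z) := by
    unfold aw
    rw [List.length_cons, hk]
    congr 1
    refine integral_congr_ae (Filter.Eventually.of_forall fun z => ?_)
    have h1 := gw_cons S m (Function.update lam (k + 1) x) a v z
    rw [hk, Function.update_self, hgw] at h1
    exact h1
  have e2 : aw S m (Function.update lam (k + 1) x) v =
      (N : ℝ) ^ (k + 1) * ∫ z, gw S m lam v z * (N : ℝ)⁻¹ := by
    have h1 : aw S m (Function.update lam (k + 1) x) v = (N : ℝ) ^ k * ∫ z, gw S m lam v z := by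
      unfold aw
      rw [hk, ← hgw]
      rfl
    rw [h1, integral_mul_const]
    field_simp
    ring
  have i1 : Integrable (fun z => gw S m lam v z * S.f a (x * dt (dir m (k + 1)) z)) :=
    ((gw_smooth S m lam v).continuous.mul
      ((S.smooth a).continuous.comp (phase_smooth x _).continuous)).integrable_of_hasCompactSupport
      (HasCompactSupport.mul_right (gw_supp S m lam v))
  have i2 : Integrable (fun z => gw S m lam v z * (N : ℝ)⁻¹) :=
    (integrable_gw S m lam v).mul_const _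
  have e3 : aw S m (Function.update lam (k + 1) x) (a :: v) -
      aw S m (Function.update lam (k + 1) x) v =
      (N : ℝ) ^ (k + 1) * ∫ z, gw S m lam v z * (fun t => S.f a t - (N : ℝ)⁻¹)
        (x * dt (dir m (k + 1)) z) := by
    rw [e1, e2, ← mul_sub, ← integral_sub i1 i2]
    congr 1
    refine integral_congr_ae (Filter.Eventually.of_forall fun z => ?_)
    simp only
    ring
  have h4 := osc_one (h := fun t => S.f a t - (N : ℝ)⁻¹) (gw_smooth S m lam v)
    (gw_supp S m lam v) (p_smooth S a) (p_hasDerivAt S a) (abs_p_le S a) (norm_dir m (k + 1)) hx.1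
  rw [e3, abs_mul, abs_of_nonneg (by positivity : (0 : ℝ) ≤ (N : ℝ) ^ (k + 1))]
  calc (N : ℝ) ^ (k + 1) * |∫ z, gw S m lam v z * (fun t => S.f a t - (N : ℝ)⁻¹)
        (x * dt (dir m (k + 1)) z)| ≤ (N : ℝ) ^ (k + 1) * (x⁻¹ *
        (1 * ∫ z, |fderiv ℝ (gw S m lam v) z (dir m (k + 1))|)) :=
        mul_le_mul_of_nonneg_left h4 (by positivity)
    _ = x⁻¹ * ((N : ℝ) ^ (k + 1) * (1 * ∫ z, |fderiv ℝ (gw S m lam v) z (dir m (k + 1))|)) := by
        ring
    _ ≤ δ := hx.2

end

end H63LE
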