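import Pool.Agent.H63.LE.Ev0

/-!
S05864 PART E [H63 LE EV3]. The conditions hold for large `λ_(k+1) = x`. Here `lam` is fixed and `lam' = Function.update lam (k+1) x`.
For `v ∈ lev N k` (`|v| = k`, `mem_lev`): `Psi lam' v = Psi lam v` (`Psi_update`), hence the same for `gw`, `aw`, `bw`, `Av`, `Ar` (unfold), and `lam' (k+1) = x`
(`Function.update_self`). For finitely many `v`, `a`: `Filter.eventually_all_finset`, `Filter.eventually_all`.
`ev3`: `dt (I n) (Av (a::v) f - Av v f) = Ar (a::v) (I n) f - Ar v (I n) f` (`dt_Av`) `= - N^(k+1) ∫ g z (f a (x n.z) - 1/N) f z`, `g z = fderiv (gw v) z (I n)`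
(`fderiv_gw_perp`), `g` smooth with compact support (`HasCompactSupport.fderiv_apply`, `ContDiff.fderiv_right`), `osc_lp`: the bound is `x⁻¹ N^(k+1) C c` with `C` independent
of `f`. `f` is continuous because it is Lipschitz (`Lp`).
-/

set_option autoImplicit false

open MeasureTheory Filter
open scoped ContDiff

namespace H63LE

open H50RC

private theorem ev3_small (C : ℝ) {δ : ℝ} (hδ : 0 < δ) :
    ∀ᶠ x : ℝ in atTop, 0 < x ∧ x⁻¹ * C ≤ δ := by
  have h1 : Tendsto (fun x : ℝ => x⁻¹ * C) atTop (nhds (0 * C)) :=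
    tendsto_inv_atTop_zero.mul_const C
  rw [zero_mul] at h1
  exact (eventually_gt_atTop 0).and (h1.eventually_le_const hδ)

section
variable {N : ℕ} {η : ℝ} (S : PS N η) (m : ℕ) (lam : ℕ → ℝ)

theorem ev3 (k : ℕ) {δ : ℝ} (hδ : 0 < δ) : ∀ᶠ x in atTop, ∀ v ∈ lev N k, ∀ a, ∀ (f : ℂ → ℝ) (c : ℝ), Lp c f →
    |dt (Complex.I * dir m (k + 1)) (Av S m (Function.update lam (k + 1) x) (a :: v) f -
      Av S m (Function.update lam (k + 1) x) v f)| ≤ δ * c := by
  rw [eventually_all_finset]
  intro v hv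
  rw [eventually_all]
  intro a
  have hk : v.length = k := mem_lev.1 hv
  have hN : (0 : ℝ) < N := by
    have : 0 < N := Fin.pos a
    exact_mod_cast this
  obtain ⟨g, hg⟩ : ∃ g : ℂ → ℝ, g = fun z => fderiv ℝ (gw S m lam v) z
    (Complex.I * dir m (k + 1)) := ⟨_, rfl⟩
  have hgs : ContDiff ℝ ∞ g := by
    rw [hg]
    exact ((gw_smooth S m lam v).fderiv_right (m := ∞) (by simp)).clm_apply contDiff_const
  have hgc : HasCompactSupport g := by
    rw [hg]
    exact (gw_supp S m lam v).fderiv_apply ℝ _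
  filter_upwards [ev3_small ((N : ℝ) ^ (k + 1) * (1 * (∫ z, |g z|) +
    1 * ∫ z, |fderiv ℝ g z (dir m (k + 1))| * ‖z‖)) hδ] with x hx f c hf
  have hgw : gw S m (Function.update lam (k + 1) x) v = gw S m lam v := by
    funext z
    unfold gw
    rw [Psi_update S m lam hv x]
  have hfc : Continuous f := by
    have h1 : LipschitzWith ⟨c, hf.1⟩ f := LipschitzWith.of_dist_le_mul fun z w => by
      rw [Real.dist_eq, dist_eq_norm]
      exact hf.2.2 z w
    exact h1.continuous
  rw [dt_sub_right, dt_Av S m _ _ _ hfc, dt_Av S m _ _ _ hfc]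
  have e1 : Ar S m (Function.update lam (k + 1) x) (a :: v) (Complex.I * dir m (k + 1)) f =
      -((N : ℝ) ^ (k + 1) * ∫ z, g z * S.f a (x * dt (dir m (k + 1)) z) * f z) := by
    unfold Ar
    rw [List.length_cons, hk]
    congr 2
    refine integral_congr_ae (Filter.Eventually.of_forall fun z => ?_)
    have h1 := fderiv_gw_perp S m (Function.update lam (k + 1) x) a v z
    rw [hk, Function.update_self, hgw] at h1
    simp only
    rw [h1, hg]
  have e2 : Ar S m (Function.update lam (k + 1) x) v (Complex.I * dir m (k + 1)) f =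
      -((N : ℝ) ^ (k + 1) * ∫ z, g z * (N : ℝ)⁻¹ * f z) := by
    have h1 : Ar S m (Function.update lam (k + 1) x) v (Complex.I * dir m (k + 1)) f =
        -((N : ℝ) ^ k * ∫ z, g z * f z) := by
      unfold Ar
      rw [hk, hgw, hg]
    have h2 : ∫ z, g z * (N : ℝ)⁻¹ * f z = (N : ℝ)⁻¹ * ∫ z, g z * f z := by
      rw [← integral_const_mul]
      refine integral_congr_ae (Filter.Eventually.of_forall fun z => ?_)
      simp only
      ring
    rw [h1, h2]
    field_simp
    ring
  have i1 : Integrable (fun z => g z * S.f a (x * dt (dir m (k + 1)) z) * f z) :=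
    ((hgs.continuous.mul ((S.smooth a).continuous.comp (phase_smooth x _).continuous)).mul
      hfc).integrable_of_hasCompactSupport
      (HasCompactSupport.mul_right (HasCompactSupport.mul_right hgc))
  have i2 : Integrable (fun z => g z * (N : ℝ)⁻¹ * f z) :=
    ((hgs.continuous.mul continuous_const).mul hfc).integrable_of_hasCompactSupport
      (HasCompactSupport.mul_right (HasCompactSupport.mul_right hgc))
  have e3 : Ar S m (Function.update lam (k + 1) x) (a :: v) (Complex.I * dir m (k + 1)) f -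
      Ar S m (Function.update lam (k + 1) x) v (Complex.I * dir m (k + 1)) f =
      -((N : ℝ) ^ (k + 1) * ∫ z, g z * (fun t => S.f a t - (N : ℝ)⁻¹)
        (x * dt (dir m (k + 1)) z) * f z) := by
    have h1 : ∫ z, g z * (fun t => S.f a t - (N : ℝ)⁻¹) (x * dt (dir m (k + 1)) z) * f z =
        (∫ z, g z * S.f a (x * dt (dir m (k + 1)) z) * f z) - ∫ z, g z * (N : ℝ)⁻¹ * f z := by
      rw [← integral_sub i1 i2]
      refine integral_congr_ae (Filter.Eventually.of_forall fun z => ?_)
      simp only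
      ring
    rw [e1, e2, h1]
    ring
  have h4 := osc_lp (h := fun t => S.f a t - (N : ℝ)⁻¹) hf hgs hgc (p_smooth S a)
    (p_hasDerivAt S a) (abs_p_le S a) (norm_dir m (k + 1)) hx.1
  rw [e3, abs_neg, abs_mul, abs_of_nonneg (by positivity : (0 : ℝ) ≤ (N : ℝ) ^ (k + 1))]
  calc (N : ℝ) ^ (k + 1) * |∫ z, g z * (fun t => S.f a t - (N : ℝ)⁻¹)
        (x * dt (dir m (k + 1)) z) * f z| ≤ (N : ℝ) ^ (k + 1) * (x⁻¹ * (1 * (∫ z, |g z|) +
    1 * ∫ z, |fderiv ℝ g z (dir m (k + 1))| * ‖z‖) * c) :=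
        mul_le_mul_of_nonneg_left h4 (by positivity)
    _ = x⁻¹ * ((N : ℝ) ^ (k + 1) * (1 * (∫ z, |g z|) +
    1 * ∫ z, |fderiv ℝ g z (dir m (k + 1))| * ‖z‖)) * c := by
        ring
    _ ≤ δ * c := mul_le_mul_of_nonneg_right hx.2 hf.1

end

end H63LE
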