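import Pool.Agent.H63.LE.Ev0

/-!
S05864 PART E [H63 LE EV4]. The conditions hold for large `λ_(k+1) = x`. Here `lam` is fixed and `lam' = Function.update lam (k+1) x`.
For `v ∈ lev N k` (`|v| = k`, `mem_lev`): `Psi lam' v = Psi lam v` (`Psi_update`), hence the same for `gw`, `aw`, `bw`, `Av`, `Ar` (unfold), and `lam' (k+1) = x`
(`Function.update_self`). For finitely many `v`, `a`: `Filter.eventually_all_finset`, `Filter.eventually_all`.
`ev4`: `bw (a::v) = N^(k+1) ∫ bt Psi_v² f_a² = N^(k+1) ∫ bt Psi_v² (f_a² - μ) + N μ bw v`, `μ = ∫_0^1 f_a²`, `N μ ≥ 1 - η` (`S.sq`, `N ≥ 1` since `a : Fin N`),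
`bw v ≥ 0`; the first term tends to zero by `exists_prim` for `h = f_a²` and `osc_one` with `g = bt Psi_v²`.
-/

set_option autoImplicit false

open MeasureTheory Filter
open scoped ContDiff

namespace H63LE

open H50RC

private theorem ev4_small (C : ℝ) {δ : ℝ} (hδ : 0 < δ) :
    ∀ᶠ x : ℝ in atTop, 0 < x ∧ x⁻¹ * C ≤ δ := by
  have h1 : Tendsto (fun x : ℝ => x⁻¹ * C) atTop (nhds (0 * C)) :=
    tendsto_inv_atTop_zero.mul_const C
  rw [zero_mul] at h1
  exact (eventually_gt_atTop 0).and (h1.eventually_le_const hδ)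

section
variable {N : ℕ} {η : ℝ} (S : PS N η) (m : ℕ) (lam : ℕ → ℝ)

theorem ev4 (k : ℕ) {δ : ℝ} (hδ : 0 < δ) : ∀ᶠ x in atTop, ∀ v ∈ lev N k, ∀ a,
    (1 - η) * bw S m (Function.update lam (k + 1) x) v - δ ≤ bw S m (Function.update lam (k + 1) x) (a :: v) := by
  rw [eventually_all_finset]
  intro v hv
  rw [eventually_all]
  intro a
  have hk : v.length = k := mem_lev.1 hv
  have hN : (0 : ℝ) < N := by
    have : 0 < N := Fin.pos a
    exact_mod_cast this
  obtain ⟨g, hg⟩ : ∃ g : ℂ → ℝ, g = fun z => bt z * Psi S m lam v z ^ 2 := ⟨_, rfl⟩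
  have hgs : ContDiff ℝ ∞ g := hg ▸ sq_smooth S m lam v
  have hgc : HasCompactSupport g := hg ▸ sq_supp S m lam v
  have hg0 : ∀ z, 0 ≤ g z := fun z => by
    rw [hg]
    exact mul_nonneg (bt_nonneg z) (sq_nonneg _)
  obtain ⟨H, B, hB0, hHs, hHd, hHB⟩ := exists_prim (h := fun t => S.f a t ^ 2)
    ((S.smooth a).pow 2) (fun t => by simp only [S.per])
  obtain ⟨μ, hμ⟩ : ∃ μ : ℝ, μ = ∫ s in (0 : ℝ)..1, S.f a s ^ 2 := ⟨_, rfl⟩
  have hμ1 : (1 - η) * (N : ℝ)⁻¹ ≤ μ := hμ ▸ S.sq a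
  filter_upwards [ev4_small ((N : ℝ) ^ (k + 1) *
    (B * ∫ z, |fderiv ℝ g z (dir m (k + 1))|)) hδ] with x hx
  have e1 : bw S m (Function.update lam (k + 1) x) (a :: v) =
      (N : ℝ) ^ (k + 1) * ∫ z, g z * S.f a (x * dt (dir m (k + 1)) z) ^ 2 := by
    unfold bw
    rw [List.length_cons, hk]
    congr 1
    refine integral_congr_ae (Filter.Eventually.of_forall fun z => ?_)
    have h1 : Psi S m (Function.update lam (k + 1) x) (a :: v) z =
        Psi S m (Function.update lam (k + 1) x) v z *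
          S.f a (Function.update lam (k + 1) x (v.length + 1) *
            dt (dir m (v.length + 1)) z) := rfl
    rw [hk, Function.update_self, Psi_update S m lam hv x] at h1
    simp only
    rw [h1, hg]
    ring
  have e2 : bw S m (Function.update lam (k + 1) x) v = (N : ℝ) ^ k * ∫ z, g z := by
    unfold bw
    rw [hk, Psi_update S m lam hv x, hg]
  have i1 : Integrable (fun z => g z * (fun t => S.f a t ^ 2 - ∫ s in (0 : ℝ)..1, S.f a s ^ 2)
      (x * dt (dir m (k + 1)) z)) :=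
    (hgs.continuous.mul ((((S.smooth a).continuous.comp
      (phase_smooth x (dir m (k + 1))).continuous).pow 2).sub
      continuous_const)).integrable_of_hasCompactSupport (HasCompactSupport.mul_right hgc)
  have i2 : Integrable (fun z => g z * μ) :=
    (hgs.continuous.integrable_of_hasCompactSupport hgc).mul_const _
  have e3 : ∫ z, g z * S.f a (x * dt (dir m (k + 1)) z) ^ 2 =
      (∫ z, g z * (fun t => S.f a t ^ 2 - ∫ s in (0 : ℝ)..1, S.f a s ^ 2)
        (x * dt (dir m (k + 1)) z)) + (∫ z, g z) * μ := by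
    rw [← integral_mul_const, ← integral_add i1 i2]
    refine integral_congr_ae (Filter.Eventually.of_forall fun z => ?_)
    simp only
    rw [← hμ]
    ring
  have h4 := osc_one (h := fun t => S.f a t ^ 2 - ∫ s in (0 : ℝ)..1, S.f a s ^ 2) hgs hgc hHs
    hHd hHB (norm_dir m (k + 1)) hx.1
  have h5 := (abs_le.1 h4).1
  have h6 : 0 ≤ ∫ z, g z := integral_nonneg hg0
  have hNk : (0 : ℝ) < (N : ℝ) ^ (k + 1) := by positivity
  have h7 := mul_le_mul_of_nonneg_left h5 hNk.le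
  have h8 : (N : ℝ) ^ (k + 1) * (x⁻¹ * (B * ∫ z, |fderiv ℝ g z (dir m (k + 1))|)) ≤ δ := by
    calc _ = x⁻¹ * ((N : ℝ) ^ (k + 1) * (B * ∫ z, |fderiv ℝ g z (dir m (k + 1))|)) := by ring
      _ ≤ δ := hx.2
  have h9 : (1 - η) * ((N : ℝ) ^ k * ∫ z, g z) ≤ (N : ℝ) ^ (k + 1) * ((∫ z, g z) * μ) := by
    calc (1 - η) * ((N : ℝ) ^ k * ∫ z, g z) =
          ((N : ℝ) ^ (k + 1) * ∫ z, g z) * ((1 - η) * (N : ℝ)⁻¹) := by
          field_simp
          ring
      _ ≤ ((N : ℝ) ^ (k + 1) * ∫ z, g z) * μ :=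
          mul_le_mul_of_nonneg_left hμ1 (mul_nonneg hNk.le h6)
      _ = _ := by ring
  rw [e1, e2, e3, mul_add]
  rw [mul_neg] at h7
  linarith

end

end H63LE
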