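import Pool.Agent.H63.LE.Ev1
import Pool.Agent.H63.LE.Ev3
import Pool.Agent.H63.LE.Ev4

/-!
S05864 PART E [H63 LE EX]. Choice of the frequencies, and the resulting bounds.
-/

set_option autoImplicit false

open MeasureTheory Filter
open scoped ContDiff

namespace H63LE

open H50RC

section
variable {N : ℕ} {η : ℝ} (S : PS N η) (m : ℕ)

theorem aw_congr {lam lam' : ℕ → ℝ} {w : Nd N} (h : Psi S m lam w = Psi S m lam' w) :
    aw S m lam w = aw S m lam' w := by
  unfold aw
  rw [h]

theorem bw_congr {lam lam' : ℕ → ℝ} {w : Nd N} (h : Psi S m lam w = Psi S m lam' w) :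
    bw S m lam w = bw S m lam' w := by
  unfold bw
  rw [h]

theorem gw_congr {lam lam' : ℕ → ℝ} {w : Nd N} (h : Psi S m lam w = Psi S m lam' w) :
    gw S m lam w = gw S m lam' w := by
  funext z
  unfold gw
  rw [h]

theorem Av_congr {lam lam' : ℕ → ℝ} {w : Nd N} (h : Psi S m lam w = Psi S m lam' w)
    (f : ℂ → ℝ) : Av S m lam w f = Av S m lam' w f := by
  unfold Av Ar
  rw [gw_congr S m h]

theorem cond_congr {lam lam' : ℕ → ℝ} {δ : ℝ} {k : ℕ} (h : ∀ i ≤ k + 1, lam i = lam' i) (hc : Cond S m lam δ k) :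
    Cond S m lam' δ k := by
  have h0 : ∀ v ∈ lev N k, Psi S m lam v = Psi S m lam' v := by
    intro v hv
    rw [mem_lev] at hv
    refine Psi_congr S m ?_
    intro i hi
    exact h i (by omega)
  have h1 : ∀ v ∈ lev N k, ∀ a, Psi S m lam (a :: v) = Psi S m lam' (a :: v) := by
    intro v hv a
    rw [mem_lev] at hv
    refine Psi_congr S m ?_
    intro i hi
    rw [List.length_cons] at hi
    exact h i (by omega)
  have hl : lam (k + 1) = lam' (k + 1) := h _ le_rfl
  constructor
  · rw [← hl]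
    exact hc.pos
  · intro v hv z u hu
    rw [← h0 v hv, ← hl]
    exact hc.c1 v hv z u hu
  · intro v hv a
    rw [← aw_congr S m (h0 v hv), ← aw_congr S m (h1 v hv a)]
    exact hc.c2 v hv a
  · intro v hv a f c hf
    rw [← Av_congr S m (h0 v hv), ← Av_congr S m (h1 v hv a)]
    exact hc.c3 v hv a f c hf
  · intro v hv a
    rw [← bw_congr S m (h0 v hv), ← bw_congr S m (h1 v hv a)]
    exact hc.c4 v hv a

theorem exists_lam (K : ℕ) {δ : ℝ} (hδ : 0 < δ) : ∃ lam : ℕ → ℝ, ∀ k < K, Cond S m lam δ k := by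
  induction K with
  | zero => exact ⟨fun _ => 1, fun k hk => absurd hk (Nat.not_lt_zero k)⟩
  | succ K ih =>
    obtain ⟨lam, hlam⟩ := ih
    obtain ⟨x, ⟨⟨⟨⟨hx0, hx1⟩, hx2⟩, hx3⟩, hx4⟩⟩ :=
      (((((eventually_gt_atTop (0 : ℝ)).and (ev1 S m lam K hδ)).and (ev2 S m lam K hδ)).and
        (ev3 S m lam K hδ)).and (ev4 S m lam K hδ)).exists
    refine ⟨Function.update lam (K + 1) x, ?_⟩
    intro k hk
    by_cases hkK : k = K
    · subst hkK
      refine ⟨?_, hx1, hx2, hx3, hx4⟩
      rw [Function.update_self]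
      exact hx0
    · refine cond_congr S m ?_ (hlam k (by omega))
      intro i hi
      rw [Function.update_of_ne (by omega)]

variable {S m} in
theorem aw_near {lam : ℕ → ℝ} {K : ℕ} {δ : ℝ} (hc : ∀ k < K, Cond S m lam δ k) {w : Nd N} (hw : w.length ≤ K) :
    |aw S m lam w - 1| ≤ w.length * δ := by
  induction w with
  | nil =>
    rw [aw_nil]
    simp
  | cons a w ih =>
    rw [List.length_cons] at hw
    have h1 := ih (by omega)
    have h2 := (hc w.length (by omega)).c2 w (mem_lev.2 rfl) a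
    have h3 : aw S m lam (a :: w) - 1 =
        (aw S m lam (a :: w) - aw S m lam w) + (aw S m lam w - 1) := by ring
    rw [h3, List.length_cons]
    push_cast
    calc |(aw S m lam (a :: w) - aw S m lam w) + (aw S m lam w - 1)|
        ≤ |aw S m lam (a :: w) - aw S m lam w| + |aw S m lam w - 1| := abs_add_le _ _
      _ ≤ δ + w.length * δ := add_le_add h2 h1
      _ = (w.length + 1) * δ := by ring

variable {S m} in
theorem bw_lower {lam : ℕ → ℝ} {K : ℕ} {δ : ℝ} (hδ : 0 ≤ δ) (hη : 0 ≤ η) (hK : K * δ ≤ 1)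
    (hc : ∀ k < K, Cond S m lam δ k) {w : Nd N} (hw : w.length ≤ K) :
    1 - w.length * (2 * η + δ) ≤ bw S m lam w := by
  induction w with
  | nil =>
    rw [bw_nil]
    simp
  | cons a w ih =>
    rw [List.length_cons] at hw
    have h1 := ih (by omega)
    have h2 := (hc w.length (by omega)).c4 w (mem_lev.2 rfl) a
    have h3 := aw_near hc (w := w) (by omega)
    have h4 := bw_le_aw S m lam w
    have h5 : (w.length : ℝ) * δ ≤ 1 := by
      refine le_trans ?_ hK
      apply mul_le_mul_of_nonneg_right _ hδ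
      exact_mod_cast (by omega : w.length ≤ K)
    have h6 := (abs_le.1 h3).2
    have h7 : bw S m lam w ≤ 2 := by linarith
    have h8 : η * bw S m lam w ≤ η * 2 := mul_le_mul_of_nonneg_left h7 hη
    rw [List.length_cons]
    push_cast
    nlinarith

end

end H63LE
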