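import Pool.Agent.H63.LE.PsiB
import Pool.Agent.H63.LE.Ee

/-!
S05864 PART E [H63 LE JD1]. The derivative of `JF`.
`JF_fderiv_succ`: `JF K (k+1) y z = JF K k y z + ∑_v ∑_a ss (λ)⁻¹ (Psi v z * p a (λ dt n z))` (`Finset.sum_range_succ`); product rule and chain rule,
derivative of `z ↦ λ dt n z` in direction `u` is `λ dt n u` (`ip_apply`), `p_hasDerivAt`, `λ⁻¹ λ = 1`.
-/

set_option autoImplicit false

open MeasureTheory
open scoped ContDiff

namespace H63LE

open H50RC

section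
variable {N : ℕ} {η : ℝ} (S : PS N η) (m : ℕ) (lam : ℕ → ℝ)

theorem JF_smooth (K k : ℕ) (y : Y N) : ContDiff ℝ ∞ (JF S m lam K k y) := by
  unfold JF
  refine ContDiff.add ?_ ?_
  · have h := phase_smooth 1 (ee K y [])
    simp only [one_mul] at h
    exact h
  · refine ContDiff.sum fun i _ => ContDiff.sum fun v _ => ContDiff.sum fun a _ => ?_
    exact contDiff_const.mul ((Psi_smooth S m lam v).mul ((p_smooth S a).comp (phase_smooth _ _)))

theorem JF_fderiv_succ (K k : ℕ) (y : Y N) (hl : 0 < lam (k + 1)) (z u : ℂ) :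
    fderiv ℝ (JF S m lam K (k + 1) y) z u = fderiv ℝ (JF S m lam K k y) z u + ∑ v ∈ lev N k, ∑ a,
      ss m K y (a :: v) * ((lam (k + 1))⁻¹ * fderiv ℝ (Psi S m lam v) z u *
        S.p a (lam (k + 1) * dt (dir m (k + 1)) z) +
        Psi S m lam v z * (S.f a (lam (k + 1) * dt (dir m (k + 1)) z) - (N : ℝ)⁻¹) * dt (dir m (k + 1)) u) := by
  have h0 : JF S m lam K (k + 1) y = fun z => JF S m lam K k y z + ∑ v ∈ lev N k, ∑ a,
      ss m K y (a :: v) * (lam (k + 1))⁻¹ *
        (Psi S m lam v z * S.p a (lam (k + 1) * dt (dir m (k + 1)) z)) := by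
    funext z
    simp only [JF]
    rw [Finset.sum_range_succ, add_assoc]
  have h1 : HasFDerivAt (JF S m lam K k y) (fderiv ℝ (JF S m lam K k y) z) z :=
    ((JF_smooth S m lam K k y).differentiable (by simp) z).hasFDerivAt
  have h2 : ∀ (v : Nd N) (a : Fin N), HasFDerivAt (fun z => ss m K y (a :: v) * (lam (k + 1))⁻¹ *
        (Psi S m lam v z * S.p a (lam (k + 1) * dt (dir m (k + 1)) z)))
      ((ss m K y (a :: v) * (lam (k + 1))⁻¹) • (Psi S m lam v z •
        ((S.f a (lam (k + 1) * dt (dir m (k + 1)) z) - (N : ℝ)⁻¹) • (lam (k + 1) • ip (dir m (k + 1)))) +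
        S.p a (lam (k + 1) * dt (dir m (k + 1)) z) • fderiv ℝ (Psi S m lam v) z)) z := by
    intro v a
    have h3 : HasFDerivAt (Psi S m lam v) (fderiv ℝ (Psi S m lam v) z) z :=
      ((Psi_smooth S m lam v).differentiable (by simp) z).hasFDerivAt
    have h4 := (p_hasDerivAt S a (lam (k + 1) * dt (dir m (k + 1)) z)).comp_hasFDerivAt z
      (phase_hasFDerivAt (lam (k + 1)) (dir m (k + 1)) z)
    exact (h3.mul h4).const_mul _
  have h3 : HasFDerivAt (fun z => ∑ v ∈ lev N k, ∑ a, ss m K y (a :: v) * (lam (k + 1))⁻¹ *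
        (Psi S m lam v z * S.p a (lam (k + 1) * dt (dir m (k + 1)) z)))
      (∑ v ∈ lev N k, ∑ a, (ss m K y (a :: v) * (lam (k + 1))⁻¹) • (Psi S m lam v z •
        ((S.f a (lam (k + 1) * dt (dir m (k + 1)) z) - (N : ℝ)⁻¹) • (lam (k + 1) • ip (dir m (k + 1)))) +
        S.p a (lam (k + 1) * dt (dir m (k + 1)) z) • fderiv ℝ (Psi S m lam v) z)) z :=
    HasFDerivAt.fun_sum fun v _ => HasFDerivAt.fun_sum fun a _ => h2 v a
  have h4 := (h1.add h3).fderiv
  have h5 := (congrFun (congrArg (fderiv ℝ) h0) z).trans h4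
  rw [h5]
  simp only [add_apply, sum_apply, smul_apply, smul_eq_mul, ip_apply]
  congr 1
  refine Finset.sum_congr rfl fun v _ => Finset.sum_congr rfl fun a _ => ?_
  have h6 : (lam (k + 1))⁻¹ * lam (k + 1) = 1 := inv_mul_cancel₀ hl.ne'
  linear_combination (ss m K y (a :: v) * Psi S m lam v z *
    (S.f a (lam (k + 1) * dt (dir m (k + 1)) z) - (N : ℝ)⁻¹) * dt (dir m (k + 1)) u) * h6

end

end H63LE
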