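import Pool.Agent.H63.LE.Lin1
import Pool.Agent.H63.LE.Apx

/-!
S05864 PART E [H63 LE LIN2]. The linear map `j`.
`exists_j`: for `y ∈ Xs` the function `fun x t => JF y ⟨x,t⟩` is in `LX` (`JF_lp` with `c = ∑ g ∈ lev N K, ‖y g‖`, `lipB_of_Lp`; `|z - z'| = |x - x'|` on a horizontal line),
it is linear in `y` (`ee_add`, `ee_smul`, `ss` linear, finite sums); so there is a linear map `Xs →ₗ LX`; compose with a linear projection `Y N →ₗ Xs`, a left inverse of
`Submodule.subtype` (`LinearMap.exists_leftInverse_of_injective`, `Submodule.ker_subtype`).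
-/

set_option autoImplicit false

open MeasureTheory
open scoped ContDiff

namespace H63LE

open H50RC

section
variable {N : ℕ} {η : ℝ} (S : PS N η) (m : ℕ) (lam : ℕ → ℝ)

theorem lipB_of_Lp {F : ℂ → ℝ} {c : ℝ} (h : Lp c F) :
    H50LP.lipB c (fun x (t : (Set.univ : Set ℝ)) => F ⟨x, t⟩) := by
  refine ⟨h.1, fun x x' t => ?_, fun x t t' => ?_⟩
  · have h1 := h.2.2 ⟨x, t⟩ ⟨x', t⟩
    have h2 : ((⟨x, t⟩ : ℂ) - ⟨x', t⟩) = ((x - x' : ℝ) : ℂ) := by
      apply Complex.ext <;> simp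
    rw [h2, Complex.norm_real, Real.norm_eq_abs] at h1
    exact h1
  · have h1 := h.2.2 ⟨x, t⟩ ⟨x, t'⟩
    have h2 : ((⟨x, t⟩ : ℂ) - ⟨x, t'⟩) = (((t : ℝ) - t' : ℝ) : ℂ) * Complex.I := by
      apply Complex.ext <;> simp
    rw [h2, norm_mul, Complex.norm_I, mul_one, Complex.norm_real, Real.norm_eq_abs] at h1
    exact h1

private theorem ss_add (K : ℕ) (y y' : Y N) (w : Nd N) :
    ss m K (y + y') w = ss m K y w + ss m K y' w := by
  unfold ss
  rw [ee_add, ee_add, ← dt_add_right]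
  congr 1
  ring

private theorem ss_smul (K : ℕ) (r : ℝ) (y : Y N) (w : Nd N) :
    ss m K (r • y) w = r * ss m K y w := by
  unfold ss
  rw [ee_smul, ee_smul, ← smul_sub, dt_smul_right]

private theorem JF_add (K : ℕ) (y y' : Y N) (z : ℂ) :
    JF S m lam K K (y + y') z = JF S m lam K K y z + JF S m lam K K y' z := by
  unfold JF
  simp only [ee_add, ss_add, dt_add_left, add_mul, Finset.sum_add_distrib]
  ring

private theorem JF_smul (K : ℕ) (r : ℝ) (y : Y N) (z : ℂ) :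
    JF S m lam K K (r • y) z = r * JF S m lam K K y z := by
  unfold JF
  simp only [ee_smul, ss_smul, dt_smul_left, mul_assoc, ← Finset.mul_sum]
  ring

theorem exists_j (hN : 1 ≤ N) {K : ℕ} {δ : ℝ} (hc : ∀ i < K, Cond S m lam δ i) (hδ : K * δ ≤ 1) :
    ∃ j : Y N →ₗ[ℝ] H50LP.LX Set.univ H50LP.o1, ∀ y ∈ Xs N K m, fC (j y) = JF S m lam K K y := by
  have hlp : ∀ y ∈ Xs N K m, ∃ c, Lp c (JF S m lam K K y) := by
    intro y hy
    have h0 : 0 ≤ ∑ g ∈ lev N K, ‖y g‖ := Finset.sum_nonneg fun g _ => norm_nonneg _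
    exact ⟨_, JF_lp S m lam hN hc hδ hy
      (fun g hg => Finset.single_le_sum (f := fun g => ‖y g‖) (fun g _ => norm_nonneg _) hg) h0⟩
  have hmem : ∀ y : Xs N K m, (fun x (t : (Set.univ : Set ℝ)) => JF S m lam K K y.1 ⟨x, t⟩) ∈
      H50LP.LX Set.univ H50LP.o1 := by
    intro y
    obtain ⟨c, hc'⟩ := hlp y.1 y.2
    exact ⟨hc'.2.1, c, lipB_of_Lp hc'⟩
  let j0 : Xs N K m →ₗ[ℝ] H50LP.LX Set.univ H50LP.o1 :=
    { toFun := fun y => ⟨fun x (t : (Set.univ : Set ℝ)) => JF S m lam K K y.1 ⟨x, t⟩, hmem y⟩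
      map_add' := fun y y' => by
        apply Subtype.ext
        funext x t
        exact JF_add S m lam K y.1 y'.1 ⟨x, t⟩
      map_smul' := fun r y => by
        apply Subtype.ext
        funext x t
        exact JF_smul S m lam K r y.1 ⟨x, t⟩ }
  obtain ⟨P, hP⟩ := LinearMap.exists_leftInverse_of_injective (Xs N K m).subtype
    (Submodule.ker_subtype _)
  refine ⟨j0.comp P, fun y hy => ?_⟩
  have h1 : P y = ⟨y, hy⟩ := by
    have := LinearMap.congr_fun hP ⟨y, hy⟩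
    exact this
  funext z
  have h2 : (j0.comp P) y = j0 ⟨y, hy⟩ := by
    rw [LinearMap.comp_apply, h1]
  rw [h2]
  rfl

end

end H63LE
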