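import Pool.Agent.H63.LE.AvB
import Pool.Agent.H63.LE.Alg

/-!
S05864 PART E [H63 LE LIN1]. The linear map `π`.
`fC_lp`: `|f x t - f x' t'| ≤ c |x - x'| + c |t - t'| ≤ 2 c ‖z - z'‖` (`Complex.abs_re_le_norm`, `abs_im_le_norm`).
`exists_pi`: `π f = piA K m (fun w => Av w (fC f))`: additive by `EE_add`, `Av_add` (`fC f` is continuous), homogeneous by `EE_smul`, `Av_smul`.
-/

set_option autoImplicit false

open MeasureTheory
open scoped ContDiff

namespace H63LE

open H50RC

/-- a function of `LX` as a function of the complex plane -/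
noncomputable def fC (f : H50LP.LX Set.univ H50LP.o1) (z : ℂ) : ℝ := f.1 z.re ⟨z.im, trivial⟩

theorem fC_lp {f : H50LP.LX Set.univ H50LP.o1} {c : ℝ} (h : H50LP.lipB c f.1) : Lp (2 * c) (fC f) := by
  refine ⟨by linarith [h.1], ?_, fun z w => ?_⟩
  · exact f.2.1
  · have h1 := h.2.1 z.re w.re ⟨z.im, trivial⟩
    have h2 := h.2.2 w.re ⟨z.im, trivial⟩ ⟨w.im, trivial⟩
    have h3 : |z.re - w.re| ≤ ‖z - w‖ := by
      have := Complex.abs_re_le_norm (z - w)
      rwa [Complex.sub_re] at this
    have h4 : |z.im - w.im| ≤ ‖z - w‖ := by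
      have := Complex.abs_im_le_norm (z - w)
      rwa [Complex.sub_im] at this
    have h5 : |fC f z - fC f w| ≤ c * |z.re - w.re| + c * |z.im - w.im| := by
      have h6 : fC f z - fC f w = (f.1 z.re ⟨z.im, trivial⟩ - f.1 w.re ⟨z.im, trivial⟩) +
          (f.1 w.re ⟨z.im, trivial⟩ - f.1 w.re ⟨w.im, trivial⟩) := by
        unfold fC
        ring
      rw [h6]
      exact (abs_add_le _ _).trans (add_le_add h1 h2)
    have h7 := mul_le_mul_of_nonneg_left h3 h.1
    have h8 := mul_le_mul_of_nonneg_left h4 h.1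
    linarith

theorem fC_continuous (f : H50LP.LX Set.univ H50LP.o1) : Continuous (fC f) := by
  obtain ⟨c, hc⟩ := f.2.2
  have h1 := fC_lp hc
  have h2 : LipschitzWith (Real.toNNReal (2 * c)) (fC f) := by
    refine LipschitzWith.of_dist_le_mul fun z w => ?_
    rw [Real.dist_eq, dist_eq_norm, Real.coe_toNNReal _ h1.1]
    exact h1.2.2 z w
  exact h2.continuous

section
variable {N : ℕ} {η : ℝ} (S : PS N η) (m : ℕ) (lam : ℕ → ℝ)

theorem exists_pi (K : ℕ) : ∃ π : H50LP.LX Set.univ H50LP.o1 →ₗ[ℝ] Y N,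
    ∀ f, π f = piA K m (fun w => Av S m lam w (fC f)) := by
  refine ⟨{ toFun := fun f => piA K m (fun w => Av S m lam w (fC f))
            map_add' := fun f g => ?_
            map_smul' := fun c f => ?_ }, fun f => rfl⟩
  · funext w
    have h1 : (fun w : Nd N => Av S m lam w (fC (f + g))) =
        fun w => Av S m lam w (fC f) + Av S m lam w (fC g) := by
      funext w
      exact Av_add S m lam w (fC_continuous f) (fC_continuous g)
    rw [Pi.add_apply]
    unfold piA
    rw [h1, EE_add, smul_add]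
  · funext w
    have h1 : (fun w : Nd N => Av S m lam w (fC (c • f))) =
        fun w => c • Av S m lam w (fC f) := by
      funext w
      exact Av_smul S m lam w c (fC f)
    rw [RingHom.id_apply, Pi.smul_apply]
    unfold piA
    rw [h1, EE_smul, smul_comm]

end

end H63LE
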