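import Pool.Agent.H63.LE.Defs

/-!
S05864 PART E [H63 LE PRIM]. Primitives of periodic functions.
`exists_prim`: `H t = ∫_0^t (h - μ)`, `μ = ∫_0^1 h`. `HasDerivAt` by the fundamental theorem; `ContDiff ∞` from `contDiff_infty_iff_deriv`
(differentiable, `deriv H = h - μ` smooth); `H (t+1) = H t` because the integral over a period is zero (`Function.Periodic.intervalIntegral_add_eq`);
bounded since continuous and periodic (`Function.Periodic.exists_mem_Ico₀` or `Int.fract`, compactness of `[0,1]`).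
`abs_p_le`: on `[0,1]`: `|ψ_a - 1/N| ≤ 1` (as `0 ≤ ψ_a ≤ 1`, `0 ≤ 1/N ≤ 1`), so `|p a t| ≤ t ≤ 1`; in general by periodicity (`p_add_one`).
`exists_deriv_bound`: `deriv (f a)` is continuous and periodic.
-/

set_option autoImplicit false

open MeasureTheory
open scoped ContDiff

namespace H63LE

theorem prim_hasDerivAt {h : ℝ → ℝ} (hs : Continuous h) (μ t : ℝ) :
    HasDerivAt (fun t => ∫ s in (0 : ℝ)..t, (h s - μ)) (h t - μ) t := by
  have hc : Continuous fun s => h s - μ := hs.sub continuous_const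
  exact intervalIntegral.integral_hasDerivAt_right (hc.intervalIntegrable _ _)
    (hc.stronglyMeasurableAtFilter _ _) hc.continuousAt

theorem prim_smooth {h : ℝ → ℝ} (hs : ContDiff ℝ ∞ h) (μ : ℝ) :
    ContDiff ℝ ∞ (fun t => ∫ s in (0 : ℝ)..t, (h s - μ)) := by
  rw [contDiff_infty_iff_deriv]
  refine ⟨fun t => (prim_hasDerivAt hs.continuous μ t).differentiableAt, ?_⟩
  have h1 : deriv (fun t => ∫ s in (0 : ℝ)..t, (h s - μ)) = fun t => h t - μ := by
    funext t
    exact (prim_hasDerivAt hs.continuous μ t).deriv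
  rw [h1]
  exact hs.sub contDiff_const

theorem prim_add_one {h : ℝ → ℝ} (hs : Continuous h) (hp : ∀ t, h (t + 1) = h t) (t : ℝ) :
    (∫ s in (0 : ℝ)..(t + 1), (h s - ∫ s in (0 : ℝ)..1, h s)) =
      ∫ s in (0 : ℝ)..t, (h s - ∫ s in (0 : ℝ)..1, h s) := by
  set μ : ℝ := ∫ s in (0 : ℝ)..1, h s with hμ
  have hc : Continuous fun s => h s - μ := hs.sub continuous_const
  have hper : Function.Periodic (fun s => h s - μ) 1 := fun s => by
    show h (s + 1) - μ = h s - μ
    rw [hp]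
  have h1 := hper.intervalIntegral_add_eq t 0
  have h2 : (∫ s in (0 : ℝ)..(0 + 1), (h s - μ)) = 0 := by
    rw [zero_add, intervalIntegral.integral_sub (hs.intervalIntegrable _ _)
      (continuous_const.intervalIntegrable _ _), ← hμ]
    simp
  rw [h2] at h1
  rw [← intervalIntegral.integral_add_adjacent_intervals (hc.intervalIntegrable 0 t)
    (hc.intervalIntegrable t (t + 1)), h1, add_zero]

theorem periodic_bdd {h : ℝ → ℝ} (hs : Continuous h) (hp : ∀ t, h (t + 1) = h t) :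
    ∃ B : ℝ, 0 ≤ B ∧ ∀ t, |h t| ≤ B := by
  obtain ⟨B, hB⟩ := (isCompact_Icc (a := (0 : ℝ)) (b := 1)).exists_bound_of_continuousOn hs.continuousOn
  refine ⟨max B 0, le_max_right _ _, fun t => ?_⟩
  have hper : Function.Periodic h 1 := hp
  obtain ⟨y, hy, hy'⟩ := hper.exists_mem_Ico₀ one_pos t
  rw [hy']
  exact (hB y ⟨hy.1, hy.2.le⟩).trans (le_max_left _ _)

theorem exists_prim {h : ℝ → ℝ} (hs : ContDiff ℝ ∞ h) (hp : ∀ t, h (t + 1) = h t) :
    ∃ (H : ℝ → ℝ) (B : ℝ), 0 ≤ B ∧ ContDiff ℝ ∞ H ∧ (∀ t, HasDerivAt H (h t - ∫ s in (0 : ℝ)..1, h s) t) ∧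
      ∀ t, |H t| ≤ B := by
  have h1 := prim_smooth hs (∫ s in (0 : ℝ)..1, h s)
  obtain ⟨B, hB, h2⟩ := periodic_bdd h1.continuous (prim_add_one hs.continuous hp)
  exact ⟨_, B, hB, h1, fun t => prim_hasDerivAt hs.continuous _ t, h2⟩

section
variable {N : ℕ} {η : ℝ} (S : PS N η)

theorem f_le_one (a : Fin N) (t : ℝ) : S.f a t ≤ 1 := by
  rw [← S.sum_one t]
  exact Finset.single_le_sum (f := fun a => S.f a t) (fun b _ => S.nonneg b t) (Finset.mem_univ a)

theorem p_zero (a : Fin N) : S.p a 0 = 0 := by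
  simp [PS.p]

theorem p_hasDerivAt (a : Fin N) (t : ℝ) : HasDerivAt (S.p a) (S.f a t - (N : ℝ)⁻¹) t :=
  prim_hasDerivAt (S.smooth a).continuous _ t

theorem p_smooth (a : Fin N) : ContDiff ℝ ∞ (S.p a) := prim_smooth (S.smooth a) _

theorem p_add_one (a : Fin N) (t : ℝ) : S.p a (t + 1) = S.p a t := by
  have h := prim_add_one (S.smooth a).continuous (S.per a) t
  rw [S.mean a] at h
  exact h

theorem abs_p_le (a : Fin N) (t : ℝ) : |S.p a t| ≤ 1 := by
  have hper : Function.Periodic (S.p a) 1 := p_add_one S a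
  obtain ⟨y, hy, hy'⟩ := hper.exists_mem_Ico₀ one_pos t
  rw [hy']
  have hN : 1 ≤ N := Nat.succ_le_of_lt (lt_of_le_of_lt (Nat.zero_le _) a.2)
  have hN' : (1 : ℝ) ≤ N := by exact_mod_cast hN
  have h0 : (0 : ℝ) ≤ (N : ℝ)⁻¹ := by positivity
  have h1 : (N : ℝ)⁻¹ ≤ 1 := inv_le_one_of_one_le₀ hN'
  have h2 : ‖∫ s in (0 : ℝ)..y, (S.f a s - (N : ℝ)⁻¹)‖ ≤ 1 * |y - 0| := by
    refine intervalIntegral.norm_integral_le_of_norm_le_const fun s _ => ?_
    rw [Real.norm_eq_abs, abs_le]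
    have := S.nonneg a s
    have := f_le_one S a s
    constructor <;> linarith
  rw [sub_zero, one_mul, abs_of_nonneg hy.1] at h2
  exact h2.trans hy.2.le

theorem exists_deriv_bound : ∃ B : ℝ, 0 ≤ B ∧ ∀ a t, |deriv (S.f a) t| ≤ B := by
  have h : ∀ a : Fin N, ∃ B : ℝ, 0 ≤ B ∧ ∀ t, |deriv (S.f a) t| ≤ B := by
    intro a
    refine periodic_bdd ((contDiff_infty_iff_deriv.1 (S.smooth a)).2.continuous) fun t => ?_
    have h1 : (fun t => S.f a (t + 1)) = S.f a := by
      funext t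
      exact S.per a t
    have h2 := deriv_comp_add_const (f := S.f a) 1 t
    rw [h1] at h2
    exact h2.symm
  choose B hB hB' using h
  refine ⟨∑ a, B a, Finset.sum_nonneg fun a _ => hB a, fun a t => (hB' a t).trans ?_⟩
  exact Finset.single_le_sum (fun b _ => hB b) (Finset.mem_univ a)

end

end H63LE
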