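import Pool.Agent.H63.LE.Prim

/-!
S05864 PART E [H63 LE PSI1]. Properties of `Psi`. All by induction on the word `w` (`Psi (a::w) z = Psi w z * f a (λ n.z)`, `rfl`).
`Psi_smooth`: `z ↦ λ * dt n z` is the continuous linear map `λ • ip n` (`ip_apply`). `Psi_sum`: `sum_lev_succ`, `Psi_children`.
`Psi_bdd`: product rule, `0 ≤ Psi ≤ 1`, `0 ≤ f ≤ 1`, chain rule with `exists_deriv_bound`, `|dt n u| ≤ 1` (`abs_dt_le`, `norm_dir`).
-/

set_option autoImplicit false

open MeasureTheory
open scoped ContDiff

namespace H63LE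

open H50RC

section
variable {N : ℕ} {η : ℝ} (S : PS N η) (m : ℕ) (lam : ℕ → ℝ)

theorem phase_smooth (l : ℝ) (n : ℂ) : ContDiff ℝ ∞ (fun z : ℂ => l * dt n z) := by
  have h : (fun z : ℂ => l * dt n z) = fun z => (l • ip n) z := by
    funext z
    rw [smul_apply, ip_apply, smul_eq_mul]
  rw [h]
  exact (l • ip n).contDiff

theorem phase_hasFDerivAt (l : ℝ) (n z : ℂ) : HasFDerivAt (fun z : ℂ => l * dt n z) (l • ip n) z := by
  have h : (fun z : ℂ => l * dt n z) = fun z => (l • ip n) z := by
    funext z
    rw [smul_apply, ip_apply, smul_eq_mul]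
  rw [h]
  exact (l • ip n).hasFDerivAt

theorem Psi_smooth (w : Nd N) : ContDiff ℝ ∞ (Psi S m lam w) := by
  induction w with
  | nil => exact contDiff_const
  | cons a w ih => exact ih.mul ((S.smooth a).comp (phase_smooth _ _))

theorem Psi_nonneg (w : Nd N) (z : ℂ) : 0 ≤ Psi S m lam w z := by
  induction w with
  | nil => exact zero_le_one
  | cons a w ih => exact mul_nonneg ih (S.nonneg a _)

theorem Psi_le_one (w : Nd N) (z : ℂ) : Psi S m lam w z ≤ 1 := by
  induction w with
  | nil => exact le_rfl
  | cons a w ih => exact mul_le_one₀ ih (S.nonneg a _) (f_le_one S a _)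

theorem Psi_children (w : Nd N) (z : ℂ) : ∑ a, Psi S m lam (a :: w) z = Psi S m lam w z := by
  have h : ∀ a : Fin N, Psi S m lam (a :: w) z =
      Psi S m lam w z * S.f a (lam (w.length + 1) * dt (dir m (w.length + 1)) z) := fun _ => rfl
  simp only [h]
  rw [← Finset.mul_sum, S.sum_one, mul_one]

theorem Psi_sum (k : ℕ) (z : ℂ) : ∑ w ∈ lev N k, Psi S m lam w z = 1 := by
  induction k with
  | zero => simp [lev, Psi]
  | succ k ih =>
    rw [sum_lev_succ, ← ih]
    exact Finset.sum_congr rfl fun w _ => Psi_children S m lam w z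

variable {lam} in
theorem Psi_congr {lam' : ℕ → ℝ} {w : Nd N} (h : ∀ i ≤ w.length, lam i = lam' i) :
    Psi S m lam w = Psi S m lam' w := by
  induction w with
  | nil => rfl
  | cons a w ih =>
    funext z
    have h1 : Psi S m lam w = Psi S m lam' w := ih fun i hi => h i (by simp only [List.length_cons]; omega)
    have h2 : lam (w.length + 1) = lam' (w.length + 1) := h _ (by simp only [List.length_cons]; omega)
    show Psi S m lam w z * _ = Psi S m lam' w z * _
    rw [h1, h2]

theorem Psi_fderiv_cons (a : Fin N) (w : Nd N) (z u : ℂ) : fderiv ℝ (Psi S m lam (a :: w)) z u =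
    Psi S m lam w z * (deriv (S.f a) (lam (w.length + 1) * dt (dir m (w.length + 1)) z) *
      (lam (w.length + 1) * dt (dir m (w.length + 1)) u)) +
      S.f a (lam (w.length + 1) * dt (dir m (w.length + 1)) z) * fderiv ℝ (Psi S m lam w) z u := by
  have h1 : HasFDerivAt (Psi S m lam w) (fderiv ℝ (Psi S m lam w) z) z :=
    ((Psi_smooth S m lam w).differentiable (by simp) z).hasFDerivAt
  have h2 : HasDerivAt (S.f a) (deriv (S.f a) (lam (w.length + 1) * dt (dir m (w.length + 1)) z))
      (lam (w.length + 1) * dt (dir m (w.length + 1)) z) :=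
    ((S.smooth a).differentiable (by simp) _).hasDerivAt
  have h3 := h2.comp_hasFDerivAt z (phase_hasFDerivAt (lam (w.length + 1)) (dir m (w.length + 1)) z)
  have h4 := (h1.mul h3).fderiv
  have h5 : Psi S m lam (a :: w) = Psi S m lam w *
      (S.f a ∘ fun z => lam (w.length + 1) * dt (dir m (w.length + 1)) z) := rfl
  rw [h5, h4]
  simp only [add_apply, smul_apply, smul_eq_mul, ip_apply,
    Function.comp_apply]

theorem Psi_bdd (w : Nd N) : ∃ B : ℝ, 0 ≤ B ∧ ∀ z u, ‖u‖ ≤ 1 → |fderiv ℝ (Psi S m lam w) z u| ≤ B := by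
  induction w with
  | nil =>
    refine ⟨0, le_rfl, fun z u _ => ?_⟩
    have h : Psi S m lam ([] : Nd N) = fun _ => (1 : ℝ) := by
      funext z
      rfl
    rw [h]
    simp
  | cons a w ih =>
    obtain ⟨B, hB, h⟩ := ih
    obtain ⟨D, hD, h'⟩ := exists_deriv_bound S
    refine ⟨D * |lam (w.length + 1)| + B, by positivity, fun z u hu => ?_⟩
    rw [Psi_fderiv_cons]
    refine (abs_add_le _ _).trans (add_le_add ?_ ?_)
    · rw [abs_mul, abs_mul, abs_mul, abs_of_nonneg (Psi_nonneg S m lam w z)]
      have h1 : |dt (dir m (w.length + 1)) u| ≤ 1 := by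
        refine (abs_dt_le _ _).trans ?_
        rw [norm_dir, one_mul]
        exact hu
      have h2 := h' a (lam (w.length + 1) * dt (dir m (w.length + 1)) z)
      calc Psi S m lam w z * (|deriv (S.f a) (lam (w.length + 1) * dt (dir m (w.length + 1)) z)| *
            (|lam (w.length + 1)| * |dt (dir m (w.length + 1)) u|)) ≤ 1 * (D * (|lam (w.length + 1)| * 1)) := by
            gcongr
            exact Psi_le_one S m lam w z
        _ = D * |lam (w.length + 1)| := by ring
    · rw [abs_mul, abs_of_nonneg (S.nonneg a _)]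
      calc _ ≤ 1 * B := by
            gcongr
            · exact f_le_one S a _
            · exact h z u hu
        _ = B := one_mul B

end

end H63LE
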